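import Pool.Agent.HLM.Targets

/-!
# The block ALT: every diagonal matrix is almost a bounded product of paired ones
-/

set_option autoImplicit false

open Finset

namespace Pool.Agent.HLM

/-- The part of `w` on the pairs with numbers in `[i m, (i + 1) m)`. -/
noncomputable def altPart {n N : ℕ} (m : ℕ) (w : Fin n → Circle) (s t : Fin N → Fin n) (i : ℕ)
    (x : Fin n) : Circle :=
  open Classical in if ∃ j : Fin N, (s j = x ∨ t j = x) ∧ j.val / m = i then w x else 1

theorem alt_window {n : ℕ} (N m q : ℕ) (hm : 0 < m) (h1 : m ≤ N) (h2 : N ≤ q * m)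
    (w : Fin n → Circle) (s t : Fin N → Fin n) (hinj : Function.Injective (Sum.elim s t))
    (hp : ∀ j, w (s j) * w (t j) = 1)
    (hout : ∀ i, (∀ j, s j ≠ i) → (∀ j, t j ≠ i) → w i = 1) :
    ∃ a : ℕ → Fin n → Circle, (∀ i, Paired m (a i)) ∧ ∏ i ∈ range q, a i = w := by
  classical
  have hss : ∀ j k, s j = s k → j = k := fun j k h => by
    have := @hinj (Sum.inl j) (Sum.inl k) h
    simpa using this
  have htt : ∀ j k, t j = t k → j = k := fun j k h => by
    have := @hinj (Sum.inr j) (Sum.inr k) h
    simpa using this
  have hst : ∀ j k, s j ≠ t k := fun j k h => by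
    have := @hinj (Sum.inl j) (Sum.inr k) h
    simp at this
  have key : ∀ i (j : Fin N) (x : Fin n), (s j = x ∨ t j = x) →
      altPart m w s t i x = if j.val / m = i then w x else 1 := by
    intro i j x hx
    have h : (∃ j : Fin N, (s j = x ∨ t j = x) ∧ j.val / m = i) ↔ j.val / m = i := by
      constructor
      · rintro ⟨k, hk, hki⟩
        have : k = j := by
          rcases hx with hx | hx <;> rcases hk with hk | hk
          · exact hss _ _ (hk.trans hx.symm)
          · exact absurd (hx.trans hk.symm) (hst _ _)
          · exact absurd (hk.trans hx.symm) (hst _ _)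
          · exact htt _ _ (hk.trans hx.symm)
        rw [← this]
        exact hki
      · exact fun h => ⟨j, hx, h⟩
    unfold altPart
    simp only [h]
  refine ⟨altPart m w s t, fun i => ?_, ?_⟩
  · have hlt : ∀ k : Fin m, min (i * m) (N - m) + k.val < N := by
      intro k
      have := k.2
      have h3 : min (i * m) (N - m) ≤ N - m := min_le_right _ _
      omega
    let f : Fin m → Fin N := fun k => ⟨min (i * m) (N - m) + k.val, hlt k⟩
    have hf : Function.Injective f := by
      intro a b hab
      have := congrArg Fin.val hab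
      apply Fin.ext
      simp only [f] at this
      omega
    refine ⟨fun k => s (f k), fun k => t (f k), ?_, ?_, ?_⟩
    · have : Sum.elim (fun k => s (f k)) (fun k => t (f k)) = Sum.elim s t ∘ Sum.map f f := by
        funext z
        rcases z with z | z <;> rfl
      rw [this]
      exact hinj.comp (Sum.map_injective.mpr ⟨hf, hf⟩)
    · intro k
      rw [key i (f k) _ (Or.inl rfl), key i (f k) _ (Or.inr rfl)]
      by_cases h : (f k).val / m = i
      · rw [if_pos h, if_pos h]
        exact hp _
      · rw [if_neg h, if_neg h, one_mul]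
    · intro x hx hx'
      unfold altPart
      rw [if_neg]
      rintro ⟨j, hj, hji⟩
      have hj2 := j.2
      have hl : i * m ≤ j.val := by
        rw [← hji]
        exact Nat.div_mul_le_self _ _
      have hr : j.val < i * m + m := by
        rw [← hji]
        have := Nat.lt_div_mul_add hm (a := j.val)
        exact this
      have h3 : min (i * m) (N - m) ≤ i * m := min_le_left _ _
      have h4 : min (i * m) (N - m) = i * m ∨ min (i * m) (N - m) = N - m := min_choice _ _
      have hk : j.val - min (i * m) (N - m) < m := by omega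
      have hfk : f ⟨j.val - min (i * m) (N - m), hk⟩ = j := by
        apply Fin.ext
        simp only [f]
        omega
      rcases hj with hj | hj
      · exact hx ⟨_, hk⟩ ((congrArg s hfk).trans hj)
      · exact hx' ⟨_, hk⟩ ((congrArg t hfk).trans hj)
  · funext x
    rw [Finset.prod_apply]
    by_cases hx : ∃ j, s j = x ∨ t j = x
    · obtain ⟨j, hj⟩ := hx
      rw [Finset.prod_eq_single (j.val / m)]
      · rw [key _ j x hj, if_pos rfl]
      · intro i _ hi
        rw [key _ j x hj, if_neg (Ne.symm hi)]
      · intro h
        exfalso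
        apply h
        rw [Finset.mem_range]
        apply Nat.div_lt_of_lt_mul
        have := j.2
        rw [mul_comm]
        omega
    · push Not at hx
      rw [hout x (fun j => (hx j).1) (fun j => (hx j).2)]
      apply Finset.prod_eq_one
      intro i _
      unfold altPart
      rw [if_neg]
      rintro ⟨j, hj, _⟩
      rcases hj with hj | hj
      · exact (hx j).1 hj
      · exact (hx j).2 hj

/-- The initial products. -/
noncomputable def altP {n : ℕ} (v : Fin n → Circle) (x : ℕ) : Circle :=
  ∏ y ∈ range (x + 1), if h : y < n then v ⟨y, h⟩ else 1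

theorem altP_zero {n : ℕ} (v : Fin n → Circle) (h : 0 < n) : altP v 0 = v ⟨0, h⟩ := by
  simp [altP, h]

theorem altP_succ {n : ℕ} (v : Fin n → Circle) (x : ℕ) (h : x + 1 < n) :
    altP v (x + 1) = altP v x * v ⟨x + 1, h⟩ := by
  unfold altP
  rw [Finset.prod_range_succ _ (x + 1), dif_pos h]

theorem p_ALT : T_ALT := by
  classical
  intro n m q hm hmn hnq v
  have hn : 0 < n := by omega
  have hN1 : m ≤ n / 2 := by omega
  have hN2 : n / 2 ≤ q * m := by
    apply Nat.div_le_of_le_mul
    rw [← mul_assoc]
    exact hnq
  -- the two factors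
  let A : Fin n → Circle := fun x => if x.val + 1 = n ∧ n % 2 = 1 then 1 else
    if x.val % 2 = 0 then altP v x.val else (altP v (x.val - 1))⁻¹
  let B : Fin n → Circle := fun x => if x.val + 1 = n ∧ n % 2 = 0 then 1 else
    if x.val = 0 then 1 else if x.val % 2 = 1 then altP v x.val else (altP v (x.val - 1))⁻¹
  have hAB : ∀ x : Fin n, x.val + 1 < n → A x * B x = v x := by
    intro x hx
    have h1 : ¬ (x.val + 1 = n ∧ n % 2 = 1) := by omega
    have h2 : ¬ (x.val + 1 = n ∧ n % 2 = 0) := by omega
    simp only [A, B, if_neg h1, if_neg h2]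
    by_cases h0 : x.val = 0
    · have h3 : x.val % 2 = 0 := by omega
      rw [if_pos h3, if_pos h0, mul_one, h0, altP_zero v hn]
      congr 1
      exact Fin.ext h0.symm
    · obtain ⟨y, hy⟩ : ∃ y, x.val = y + 1 := ⟨x.val - 1, by omega⟩
      have hx2 : x = ⟨y + 1, by omega⟩ := Fin.ext hy
      have hs := altP_succ v y (by omega)
      rw [if_neg h0]
      by_cases h3 : x.val % 2 = 0
      · have h4 : ¬ x.val % 2 = 1 := by omega
        rw [if_pos h3, if_neg h4, hy, Nat.add_sub_cancel, hs]
        rw [mul_comm (altP v y), mul_assoc, mul_inv_cancel, mul_one]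
        exact congrArg v hx2.symm
      · have h4 : x.val % 2 = 1 := by omega
        rw [if_neg h3, if_pos h4, hy, Nat.add_sub_cancel, hs]
        rw [← mul_assoc, inv_mul_cancel, one_mul]
        exact congrArg v hx2.symm
  -- pairs of the first factor
  obtain ⟨a, ha, haA⟩ := alt_window (n / 2) m q hm hN1 hN2 A
    (fun j => ⟨2 * j.val, by have := j.2; omega⟩) (fun j => ⟨2 * j.val + 1, by have := j.2; omega⟩)
    (by
      intro z z' h
      rcases z with z | z <;> rcases z' with z' | z' <;>
        simp only [Sum.elim_inl, Sum.elim_inr, Fin.mk.injEq] at h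
      · congr 1; apply Fin.ext; omega
      · omega
      · omega
      · congr 1; apply Fin.ext; omega)
    (by
      intro j
      have hj := j.2
      have h1 : ¬ (2 * j.val + 1 = n ∧ n % 2 = 1) := by omega
      have h2 : ¬ (2 * j.val + 1 + 1 = n ∧ n % 2 = 1) := by omega
      have h3 : 2 * j.val % 2 = 0 := by omega
      have h4 : ¬ (2 * j.val + 1) % 2 = 0 := by omega
      simp only [A, if_neg h1, if_neg h2, if_pos h3, if_neg h4, Nat.add_sub_cancel]
      exact mul_inv_cancel _)
    (by
      intro x hx hx'
      have h1 : x.val + 1 = n ∧ n % 2 = 1 := by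
        by_contra hcon
        by_cases h3 : x.val % 2 = 0
        · have h4 : x.val / 2 < n / 2 := by have := x.2; omega
          exact hx ⟨x.val / 2, h4⟩ (Fin.ext (by simp only; omega))
        · have h4 : x.val / 2 < n / 2 := by have := x.2; omega
          exact hx' ⟨x.val / 2, h4⟩ (Fin.ext (by simp only; omega))
      simp only [A, if_pos h1])
  -- pairs of the second factor
  have hmod : ∀ j : Fin (n / 2), (2 * j.val + 2 < n ∧ (2 * j.val + 2) % n = 2 * j.val + 2) ∨
      (2 * j.val + 2 = n ∧ (2 * j.val + 2) % n = 0) := by
    intro j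
    have hj := j.2
    rcases Nat.lt_or_ge (2 * j.val + 2) n with h | h
    · exact Or.inl ⟨h, Nat.mod_eq_of_lt h⟩
    · have h' : 2 * j.val + 2 = n := by omega
      exact Or.inr ⟨h', by rw [h', Nat.mod_self]⟩
  obtain ⟨b, hb, hbB⟩ := alt_window (n / 2) m q hm hN1 hN2 B
    (fun j => ⟨2 * j.val + 1, by have := j.2; omega⟩)
    (fun j => ⟨(2 * j.val + 2) % n, Nat.mod_lt _ hn⟩)
    (by
      intro z z' h
      rcases z with z | z <;> rcases z' with z' | z' <;>
        simp only [Sum.elim_inl, Sum.elim_inr, Fin.mk.injEq] at h
      · congr 1; apply Fin.ext; omega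
      · rcases hmod z' with h' | h' <;> omega
      · rcases hmod z with h' | h' <;> omega
      · congr 1; apply Fin.ext
        rcases hmod z with h' | h' <;> rcases hmod z' with h'' | h'' <;> omega)
    (by
      intro j
      have hj := j.2
      rcases hmod j with ⟨h, h'⟩ | ⟨h, h'⟩
      · have h1 : ¬ (2 * j.val + 1 + 1 = n ∧ n % 2 = 0) := by omega
        have h2 : ¬ (2 * j.val + 2 + 1 = n ∧ n % 2 = 0) := by omega
        have h3 : ¬ (2 * j.val + 1 = 0) := by omega
        have h4 : ¬ (2 * j.val + 2 = 0) := by omega
        have h5 : (2 * j.val + 1) % 2 = 1 := by omega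
        have h6 : ¬ (2 * j.val + 2) % 2 = 1 := by omega
        have h7 : 2 * j.val + 2 - 1 = 2 * j.val + 1 := by omega
        simp only [B, h', if_neg h1, if_neg h2, if_neg h3, if_neg h4, if_pos h5, if_neg h6, h7]
        exact mul_inv_cancel _
      · have h1 : 2 * j.val + 1 + 1 = n ∧ n % 2 = 0 := by omega
        have h2 : ¬ (0 + 1 = n ∧ n % 2 = 0) := by omega
        simp only [B, h', if_pos h1, if_neg h2, if_true, one_mul])
    (by
      intro x hx hx'
      have hx3 := x.2
      by_cases h1 : x.val + 1 = n ∧ n % 2 = 0
      · simp only [B, if_pos h1]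
      · by_cases h0 : x.val = 0
        · simp only [B, if_neg h1, if_pos h0]
        · exfalso
          by_cases h3 : x.val % 2 = 1
          · have h4 : x.val / 2 < n / 2 := by omega
            exact hx ⟨x.val / 2, h4⟩ (Fin.ext (by simp only; omega))
          · have h4 : x.val / 2 - 1 < n / 2 := by omega
            refine hx' ⟨x.val / 2 - 1, h4⟩ (Fin.ext ?_)
            simp only
            have h5 : 2 * (x.val / 2 - 1) + 2 = x.val := by omega
            rw [h5, Nat.mod_eq_of_lt hx3])
  refine ⟨fun i => if i.val < q then a i.val else b (i.val - q), v * (A * B)⁻¹, ?_, ?_, ?_⟩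
  · intro i
    simp only
    split_ifs
    · exact ha _
    · exact hb _
  · intro x hx
    rw [Pi.mul_apply, Pi.inv_apply, Pi.mul_apply, hAB x hx, mul_inv_cancel]
  · have hprod : ∏ i : Fin (2 * q), (if i.val < q then a i.val else b (i.val - q)) = A * B := by
      rw [Fin.prod_univ_eq_prod_range (fun i => if i < q then a i else b (i - q)) (2 * q),
        two_mul, Finset.prod_range_add, ← haA, ← hbB]
      congr 1
      · apply Finset.prod_congr rfl
        intro i hi
        rw [if_pos (Finset.mem_range.mp hi)]
      · apply Finset.prod_congr rfl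
        intro i hi
        rw [if_neg (by omega), Nat.add_sub_cancel_left]
    rw [hprod, mul_comm v, ← mul_assoc, mul_inv_cancel, one_mul]

end Pool.Agent.HLM
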