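import Pool.Agent.HLM.Targets

/-!
# Amplification (MP_a51306_an)

From an approximation which sees `g` we make one in which `g` is far from the scalars.
-/

set_option autoImplicit false

open Filter Topology
open scoped Kronecker

namespace Pool.Agent.HLM

namespace AMP_

/-- The index bijection. -/
def e (k q : ℕ) : (Fin k × Fin q) ⊕ (Fin k × Fin q) ≃ Fin (k * q + k * q) :=
  (Equiv.sumCongr finProdFinEquiv finProdFinEquiv).trans finSumFinEquiv

/-- The block matrix of `q` copies of `A` and `q` copies of `B`. -/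
noncomputable def am {k : ℕ} (q : ℕ) (A B : Matrix (Fin k) (Fin k) ℂ) :
    Matrix (Fin (k * q + k * q)) (Fin (k * q + k * q)) ℂ :=
  Matrix.reindex (e k q) (e k q)
    (Matrix.fromBlocks (A ⊗ₖ (1 : Matrix (Fin q) (Fin q) ℂ)) 0 0
      (B ⊗ₖ (1 : Matrix (Fin q) (Fin q) ℂ)))

lemma am_mul {k : ℕ} (q : ℕ) (A B A' B' : Matrix (Fin k) (Fin k) ℂ) :
    am q (A * A') (B * B') = am q A B * am q A' B' := by
  unfold am
  simp only [Matrix.reindex_apply]
  rw [Matrix.submatrix_mul_equiv, Matrix.fromBlocks_multiply]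
  simp [← Matrix.mul_kronecker_mul]

lemma am_one {k : ℕ} (q : ℕ) : am q (1 : Matrix (Fin k) (Fin k) ℂ) 1 = 1 := by
  unfold am
  simp

lemma am_sub {k : ℕ} (q : ℕ) (A B A' B' : Matrix (Fin k) (Fin k) ℂ) :
    am q (A - A') (B - B') = am q A B - am q A' B' := by
  unfold am
  ext i j
  simp only [Matrix.reindex_apply, Matrix.submatrix_apply, Matrix.sub_apply]
  rcases (e k q).symm i with x | x <;> rcases (e k q).symm j with y | y <;>
    simp [Matrix.kroneckerMap_apply, sub_mul]

lemma am_smul {k : ℕ} (q : ℕ) (z : ℂ) (A B : Matrix (Fin k) (Fin k) ℂ) :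
    am q (z • A) (z • B) = z • am q A B := by
  unfold am
  ext i j
  simp only [Matrix.reindex_apply, Matrix.submatrix_apply, Matrix.smul_apply]
  rcases (e k q).symm i with x | x <;> rcases (e k q).symm j with y | y <;>
    simp [Matrix.kroneckerMap_apply, mul_assoc]

lemma am_star {k : ℕ} (q : ℕ) (A B : Matrix (Fin k) (Fin k) ℂ) :
    Matrix.conjTranspose (am q A B) = am q (Matrix.conjTranspose A) (Matrix.conjTranspose B) := by
  unfold am
  simp only [Matrix.reindex_apply]
  rw [Matrix.conjTranspose_submatrix, Matrix.fromBlocks_conjTranspose]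
  simp [Matrix.conjTranspose_kronecker]

lemma am_trace {k : ℕ} (q : ℕ) (A B : Matrix (Fin k) (Fin k) ℂ) :
    Matrix.trace (am q A B) = q * (Matrix.trace A + Matrix.trace B) := by
  unfold am
  have h : ∀ M : Matrix ((Fin k × Fin q) ⊕ (Fin k × Fin q)) ((Fin k × Fin q) ⊕ (Fin k × Fin q)) ℂ,
      Matrix.trace (Matrix.reindex (e k q) (e k q) M) = Matrix.trace M := by
    intro M
    exact Equiv.sum_comp (e k q).symm (fun i => M i i)
  have h2 : ∀ M N : Matrix (Fin k × Fin q) (Fin k × Fin q) ℂ,
      Matrix.trace (Matrix.fromBlocks M 0 0 N) = Matrix.trace M + Matrix.trace N := by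
    intro M N
    simp [Matrix.trace, Fintype.sum_sum_type]
  rw [h, h2, Matrix.trace_kronecker, Matrix.trace_kronecker, Matrix.trace_one, Fintype.card_fin]
  ring

lemma hs_am {k : ℕ} (q : ℕ) (hq : 0 < q) (A B : Matrix (Fin k) (Fin k) ℂ) :
    hs (am q A B) = (hs A + hs B) / 2 := by
  unfold hs
  rw [am_star, ← am_mul, am_trace]
  have hq' : (q : ℝ) ≠ 0 := by positivity
  have h1 : ((q : ℂ) * (Matrix.trace (Matrix.conjTranspose A * A) +
      Matrix.trace (Matrix.conjTranspose B * B))).re =
      (q : ℝ) * ((Matrix.trace (Matrix.conjTranspose A * A)).re +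
        (Matrix.trace (Matrix.conjTranspose B * B)).re) := by
    simp
  rw [h1]
  push_cast
  rcases Nat.eq_zero_or_pos k with hk | hk
  · subst hk
    simp
  · have hk' : (k : ℝ) ≠ 0 := by positivity
    field_simp
    ring

/-- The amplification of a unitary. -/
noncomputable def amU {k : ℕ} (q : ℕ) (u : U k) : U (k * q + k * q) :=
  ⟨am q u.val 1, by
    rw [Matrix.mem_unitaryGroup_iff, Matrix.star_eq_conjTranspose, am_star, ← am_mul]
    have h := (Matrix.mem_unitaryGroup_iff).1 u.2
    rw [Matrix.star_eq_conjTranspose] at h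
    rw [h, Matrix.conjTranspose_one, one_mul, am_one]⟩

end AMP_

open AMP_ in
theorem p_AMP (hN : T_NORM) : T_AMP := by
  intro G _ g k φ hφ hg
  obtain ⟨h1, h2, -, -, -⟩ := hN
  have hex : ∃ d : ℝ, 0 < d ∧ ∃ᶠ n in atTop, d ≤ hs ((φ n g).val - 1) := by
    by_contra hcon
    push Not at hcon
    apply hg
    rw [Metric.tendsto_nhds]
    intro ε hε
    filter_upwards [hcon ε hε] with n hn
    rw [Real.dist_eq, sub_zero, abs_of_nonneg (h1 _ _).1]
    exact hn
  obtain ⟨d, hd, hfr⟩ := hex
  obtain ⟨r, hr, hrd⟩ := Filter.extraction_of_frequently_atTop hfr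
  have hs0 : ∀ m : ℕ, hs (0 : Matrix (Fin m) (Fin m) ℂ) = 0 := by
    intro m
    unfold hs
    simp
  refine ⟨d / 4, fun j => k (r j) * (j + 1) + k (r j) * (j + 1),
    fun j h => amU (j + 1) (φ (r j) h), by positivity, ?_, ?_, ?_⟩
  · intro a b
    have hlim : Tendsto (fun j : ℕ => hs ((φ (r j) (a * b)).val -
        (φ (r j) a).val * (φ (r j) b).val) / 2) atTop (𝓝 0) := by
      have := ((hφ a b).comp hr.tendsto_atTop).div_const 2
      simpa [Function.comp_def] using this
    refine hlim.congr (fun j => ?_)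
    have : (amU (j + 1) (φ (r j) (a * b))).val -
        (amU (j + 1) (φ (r j) a)).val * (amU (j + 1) (φ (r j) b)).val =
        am (j + 1) ((φ (r j) (a * b)).val - (φ (r j) a).val * (φ (r j) b).val) 0 := by
      change am (j + 1) (φ (r j) (a * b)).val 1 - am (j + 1) (φ (r j) a).val 1 *
        am (j + 1) (φ (r j) b).val 1 = _
      rw [← am_mul, ← am_sub, one_mul, sub_self]
    change _ = hs ((amU (j + 1) (φ (r j) (a * b))).val -
      (amU (j + 1) (φ (r j) a)).val * (amU (j + 1) (φ (r j) b)).val)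
    rw [this, hs_am (j + 1) (Nat.succ_pos j), hs0]
    ring
  · refine tendsto_atTop_mono (f := fun j : ℕ => j) (fun j => ?_) tendsto_id
    have hk : 0 < k (r j) := by
      rcases Nat.eq_zero_or_pos (k (r j)) with h0 | h0
      · exfalso
        have h3 := hrd j
        have h4 : hs ((φ (r j) g).val - 1) = 0 := by
          unfold hs
          have h0' : ((k (r j) : ℕ) : ℝ) = 0 := by exact_mod_cast h0
          rw [h0', div_zero]
        linarith
      · exact h0
    nlinarith [Nat.mul_le_mul_right (j + 1) hk]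
  · intro j z
    have h5 : (amU (j + 1) (φ (r j) g)).val - z • 1 =
        am (j + 1) ((φ (r j) g).val - z • 1) (1 - z • 1) := by
      change am (j + 1) (φ (r j) g).val 1 - z • 1 = _
      rw [am_sub, am_smul, am_one]
    rw [h5, hs_am (j + 1) (Nat.succ_pos j)]
    have h6 := (h2 (k (r j)) ((φ (r j) g).val - z • 1) (-(1 - z • 1))).1
    have h7 := (h2 (k (r j)) (1 - z • 1) 0).2.2.1
    have h8 : (φ (r j) g).val - z • 1 + -(1 - z • 1) = (φ (r j) g).val - 1 := by
      abel
    rw [h8, h7] at h6
    have h9 := hrd j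
    linarith

end Pool.Agent.HLM
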