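import Pool.Agent.HLM.Targets

/-!
# HLM: block matrices and permutation matrices
-/

set_option autoImplicit false

open Filter Topology

namespace Pool.Agent.HLM

namespace BLK_

variable {m r n : ℕ}

/-- the equivalence with the factors exchanged -/
def sw (e : (Fin m × Fin 2) ⊕ Fin r ≃ Fin n) : (Fin 2 × Fin m) ⊕ Fin r ≃ Fin n :=
  (Equiv.sumCongr (Equiv.prodComm (Fin 2) (Fin m)) (Equiv.refl (Fin r))).trans e

/-- matrices on the sum, written on `Fin n` -/
def ri (e : (Fin m × Fin 2) ⊕ Fin r ≃ Fin n)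
    (A : Matrix ((Fin 2 × Fin m) ⊕ Fin r) ((Fin 2 × Fin m) ⊕ Fin r) ℂ) :
    Matrix (Fin n) (Fin n) ℂ := A.submatrix (sw e).symm (sw e).symm

lemma ri_mul (e : (Fin m × Fin 2) ⊕ Fin r ≃ Fin n)
    (A B : Matrix ((Fin 2 × Fin m) ⊕ Fin r) ((Fin 2 × Fin m) ⊕ Fin r) ℂ) :
    ri e (A * B) = ri e A * ri e B := by
  unfold ri
  rw [Matrix.submatrix_mul_equiv]

lemma ri_one (e : (Fin m × Fin 2) ⊕ Fin r ≃ Fin n) : ri e 1 = 1 := by
  unfold ri
  rw [Matrix.submatrix_one_equiv]

lemma ri_star (e : (Fin m × Fin 2) ⊕ Fin r ≃ Fin n)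
    (A : Matrix ((Fin 2 × Fin m) ⊕ Fin r) ((Fin 2 × Fin m) ⊕ Fin r) ℂ) :
    star (ri e A) = ri e (star A) := by
  unfold ri
  rw [Matrix.star_eq_conjTranspose, Matrix.conjTranspose_submatrix, Matrix.star_eq_conjTranspose]

lemma ri_diagonal (e : (Fin m × Fin 2) ⊕ Fin r ≃ Fin n) (d : (Fin 2 × Fin m) ⊕ Fin r → ℂ) :
    ri e (Matrix.diagonal d) = Matrix.diagonal (fun i => d ((sw e).symm i)) := by
  unfold ri
  rw [Matrix.submatrix_diagonal_equiv]
  rfl

/-- the block matrix -/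
def bm (X : Fin m → Matrix (Fin 2) (Fin 2) ℂ) :
    Matrix ((Fin 2 × Fin m) ⊕ Fin r) ((Fin 2 × Fin m) ⊕ Fin r) ℂ :=
  Matrix.fromBlocks (Matrix.blockDiagonal X) 0 0 1

lemma bm_mul (X Y : Fin m → Matrix (Fin 2) (Fin 2) ℂ) :
    (bm (fun j => X j * Y j) : Matrix ((Fin 2 × Fin m) ⊕ Fin r) _ ℂ) = bm X * bm Y := by
  unfold bm
  rw [Matrix.fromBlocks_multiply, Matrix.blockDiagonal_mul]
  simp

lemma bm_one : (bm (fun _ => 1) : Matrix ((Fin 2 × Fin m) ⊕ Fin r) _ ℂ) = 1 := by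
  unfold bm
  have : (fun _ : Fin m => (1 : Matrix (Fin 2) (Fin 2) ℂ)) = 1 := rfl
  rw [this, Matrix.blockDiagonal_one, Matrix.fromBlocks_one]

lemma bm_star (X : Fin m → Matrix (Fin 2) (Fin 2) ℂ) :
    star (bm X : Matrix ((Fin 2 × Fin m) ⊕ Fin r) _ ℂ) = bm (fun j => star (X j)) := by
  unfold bm
  rw [Matrix.star_eq_conjTranspose, Matrix.fromBlocks_conjTranspose,
    Matrix.blockDiagonal_conjTranspose]
  simp [Matrix.star_eq_conjTranspose]

/-- the homomorphism -/
def beta (e : (Fin m × Fin 2) ⊕ Fin r ≃ Fin n) : (Fin m → U 2) →* U n where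
  toFun X := ⟨ri e (bm fun j => (X j).val), by
    rw [Matrix.mem_unitaryGroup_iff, ri_star, bm_star, ← ri_mul, ← bm_mul]
    have : (fun j => (X j).val * star (X j).val) = fun _ => (1 : Matrix (Fin 2) (Fin 2) ℂ) := by
      funext j
      exact Matrix.mem_unitaryGroup_iff.1 (X j).2
    rw [this, bm_one, ri_one]⟩
  map_one' := by
    apply Subtype.ext
    change ri e (bm fun _ => 1) = 1
    rw [bm_one, ri_one]
  map_mul' X Y := by
    apply Subtype.ext
    change ri e (bm fun j => (X j).val * (Y j).val) =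
      ri e (bm fun j => (X j).val) * ri e (bm fun j => (Y j).val)
    rw [bm_mul, ri_mul]

lemma dU_val {k : ℕ} (d : Fin k → Circle) :
    (dU d).val = Matrix.diagonal (fun i => (d i : ℂ)) := rfl

/-- permutation matrices -/
def pm (σ : Equiv.Perm (Fin n)) : Matrix (Fin n) (Fin n) ℂ :=
  (1 : Matrix (Fin n) (Fin n) ℂ).submatrix σ id

lemma pm_mem (σ : Equiv.Perm (Fin n)) : pm σ ∈ Matrix.unitaryGroup (Fin n) ℂ := by
  rw [Matrix.mem_unitaryGroup_iff]
  ext i j
  rw [Matrix.mul_apply]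
  simp [pm, Matrix.one_apply]

end BLK_

open BLK_ in
theorem p_BLK : T_BLK := by
  intro m r n e
  refine ⟨beta e, ?_, ?_⟩
  · intro d hd
    apply Subtype.ext
    change Matrix.diagonal (fun i => (d i : ℂ)) = ri e (bm fun j => Matrix.diagonal
      (fun i => ((![d (e (Sum.inl (j, 0))), d (e (Sum.inl (j, 1)))] i : Circle) : ℂ)))
    unfold bm
    rw [Matrix.blockDiagonal_diagonal, ← Matrix.diagonal_one, Matrix.fromBlocks_diagonal,
      ri_diagonal]
    congr 1
    funext i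
    obtain ⟨p, rfl⟩ := (sw e).surjective i
    rw [Equiv.symm_apply_apply]
    rcases p with ⟨a, j⟩ | q
    · change (d (e (Sum.inl (j, a))) : ℂ) =
        ((![d (e (Sum.inl (j, 0))), d (e (Sum.inl (j, 1)))] a : Circle) : ℂ)
      fin_cases a
      · rfl
      · rfl
    · change (d (e (Sum.inr q)) : ℂ) = 1
      rw [hd]
      simp
  · intro d X hd
    apply Subtype.ext
    change Matrix.diagonal (fun i => (d i : ℂ)) * ri e (bm fun j => (X j).val) =
      ri e (bm fun j => (X j).val) * Matrix.diagonal (fun i => (d i : ℂ))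
    have h : Matrix.diagonal (fun i => (d i : ℂ)) =
        ri e (Matrix.fromBlocks 1 0 0 (Matrix.diagonal fun q => (d (e (Sum.inr q)) : ℂ))) := by
      rw [← Matrix.diagonal_one, Matrix.fromBlocks_diagonal, ri_diagonal]
      congr 1
      funext i
      obtain ⟨p, rfl⟩ := (sw e).surjective i
      rw [Equiv.symm_apply_apply]
      rcases p with ⟨a, j⟩ | q
      · change (d (e (Sum.inl (j, a))) : ℂ) = 1
        rw [hd]
        simp
      · rfl
    rw [h, ← ri_mul, ← ri_mul]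
    congr 1
    unfold bm
    rw [Matrix.fromBlocks_multiply, Matrix.fromBlocks_multiply]
    simp

open BLK_ in
theorem p_PERM : T_PERM := by
  intro n σ
  refine ⟨⟨pm σ, pm_mem σ⟩, fun d => ?_⟩
  rw [mul_inv_eq_iff_eq_mul]
  apply Subtype.ext
  change pm σ * Matrix.diagonal (fun i => (d i : ℂ)) =
    Matrix.diagonal (fun i => (d (σ i) : ℂ)) * pm σ
  ext i j
  rw [Matrix.mul_diagonal, Matrix.diagonal_mul]
  simp only [pm, Matrix.submatrix_apply, id, Matrix.one_apply]
  split_ifs with h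
  · rw [h]
    ring
  · ring

end Pool.Agent.HLM
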