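import Pool.Agent.HLM.Targets

/-!
# Block BNG: bounded normal generation in the unitary groups
-/

set_option autoImplicit false

open Filter Topology

namespace Pool.Agent.HLM

namespace BNG_

/-- the size of a unitary matrix -/
lemma hs_unitary (hN : T_NORM) {n : ℕ} (hn : 0 < n) (u : U n) : hs u.val = 1 := by
  have h := (hN.2.2.1 n 1 u 1).1
  have h1 : u.val * 1 * (1 : U n).val = u.val := by simp
  rw [h1] at h
  rw [h]
  have h2 := hN.2.2.2.2 n (fun _ => 1)
  rw [show (Matrix.diagonal fun _ : Fin n => (1 : ℂ)) = 1 from Matrix.diagonal_one] at h2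
  rw [h2]
  have h3 : (n : ℝ) ≠ 0 := by
    have : n ≠ 0 := by omega
    exact_mod_cast this
  simp [h3]

/-- products of diagonal matrices -/
lemma prod_mem (hR : T_PR) {n N : ℕ} {u : U n} {K : ℕ} (a : Fin N → Fin n → Circle)
    (h : ∀ i, dU (a i) ∈ Pr u K) (s : Finset (Fin N)) :
    dU (∏ i ∈ s, a i) ∈ Pr u (s.card * K) := by
  classical
  induction s using Finset.induction_on with
  | empty => simp [Pr]
  | insert i s hi ih =>
    rw [Finset.prod_insert hi, map_mul, Finset.card_insert_of_notMem hi]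
    have h1 := (hR (U n) u).1 K (s.card * K) _ _ (h i) ih
    have e : (s.card + 1) * K = K + s.card * K := by ring
    rw [e]
    exact h1

/-- the correction is small -/
lemma small {n : ℕ} (hn : 0 < n) (c : Fin n → Circle)
    (hc : ∀ x : Fin n, x.val + 1 < n → c x = 1) : ∑ i, ‖(c i : ℂ) - 1‖ ^ 2 ≤ 4 := by
  rw [Finset.sum_eq_single (⟨n - 1, by omega⟩ : Fin n)]
  · have h : ‖((c ⟨n - 1, by omega⟩ : Circle) : ℂ) - 1‖ ≤ 2 := by
      refine (norm_sub_le _ _).trans ?_
      rw [Circle.norm_coe, norm_one]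
      norm_num
    nlinarith [norm_nonneg (((c ⟨n - 1, by omega⟩ : Circle) : ℂ) - 1)]
  · intro i _ hi
    have h1 : i.val + 1 < n := by
      by_contra hcon
      apply hi
      apply Fin.ext
      have := i.isLt
      simp only
      omega
    rw [hc i h1]
    simp
  · intro h
    exact absurd (Finset.mem_univ _) h

end BNG_

open BNG_ in
theorem p_BNG (hD : T_DIAG) (hS : T_STEP) (hA : T_ALT) (hR : T_PR) (hN : T_NORM) : T_BNG := by
  intro δ hδ
  obtain ⟨K, hK⟩ := hS δ hδ
  refine ⟨2 * ⌈16 / δ⌉₊ * K, max ⌈32 / δ⌉₊ 1, fun n u v hn hu => ?_⟩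
  have hn1 : 0 < n := lt_of_lt_of_le one_pos ((le_max_right _ _).trans hn)
  have hn2 : 32 / δ ≤ n := by
    have h1 : (⌈32 / δ⌉₊ : ℝ) ≤ n := by exact_mod_cast (le_max_left _ _).trans hn
    exact (Nat.le_ceil _).trans h1
  have hnR : (0 : ℝ) < n := by exact_mod_cast hn1
  have hδ1 : δ ≤ 1 := by
    have h := hu 0
    rw [zero_smul, sub_zero, hs_unitary hN hn1] at h
    exact h
  have hn3 : 32 ≤ δ * n := by
    rw [div_le_iff₀ hδ] at hn2
    linarith
  set q : ℕ := ⌈16 / δ⌉₊ with hq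
  set m : ℕ := ⌊δ * n / 16⌋₊ with hm
  have hm1 : (m : ℝ) ≤ δ * n / 16 := Nat.floor_le (by positivity)
  have hm2 : δ * n / 16 < m + 1 := Nat.lt_floor_add_one _
  have hm3 : δ * n / 32 ≤ m := by linarith
  have hm0 : 0 < m := by
    have : (0 : ℝ) < m := by linarith
    exact_mod_cast this
  have h2m : 2 * m ≤ n := by
    have : (2 * m : ℝ) ≤ n := by nlinarith
    exact_mod_cast this
  have hq1 : 16 / δ ≤ q := Nat.le_ceil _
  have hnq : n ≤ 2 * q * m := by
    have h1 : (n : ℝ) ≤ 2 * q * m := by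
      calc (n : ℝ) = 2 * (16 / δ) * (δ * n / 32) := by
            field_simp
            ring
        _ ≤ 2 * q * m := by
            refine mul_le_mul (by linarith) hm3 (by positivity) (by positivity)
    exact_mod_cast h1
  obtain ⟨w, d, hw⟩ := hD n v
  obtain ⟨a, c, ha, hc, hd⟩ := hA n m q hm0 h2m hnq d
  have hmem : dU (∏ i, a i) ∈ Pr u (2 * q * K) := by
    have h := prod_mem hR (u := u) a (fun i => hK n m u hn1 (by linarith) hu (a i) (ha i))
      Finset.univ
    rwa [Finset.card_univ, Fintype.card_fin] at h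
  refine ⟨w * dU (∏ i, a i) * w⁻¹, (hR (U n) u).2.2.1 _ _ w hmem, ?_⟩
  have hval : v.val - (w * dU (∏ i, a i) * w⁻¹ : U n).val =
      (w * dU (∏ i, a i) : U n).val * Matrix.diagonal (fun i => (c i : ℂ) - 1) *
        (w⁻¹ : U n).val := by
    have h1 : v.val = (w * dU (∏ i, a i) : U n).val * (dU c : U n).val * (w⁻¹ : U n).val := by
      rw [hw, hd, map_mul, ← mul_assoc]
      rfl
    have h2 : (w * dU (∏ i, a i) * w⁻¹ : U n).val =
        (w * dU (∏ i, a i) : U n).val * 1 * (w⁻¹ : U n).val := by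
      rw [mul_one]
      rfl
    have h3 : (dU c : U n).val - 1 = Matrix.diagonal (fun i => (c i : ℂ) - 1) := by
      change Matrix.diagonal (fun i => (c i : ℂ)) - 1 = _
      rw [← Matrix.diagonal_one, Matrix.diagonal_sub]
    rw [h1, h2, ← h3, ← sub_mul, ← mul_sub]
  rw [hval, (hN.2.2.1 n _ _ _).1, hN.2.2.2.2]
  exact div_le_div_of_nonneg_right (small hn1 c hc) hnR.le

end Pool.Agent.HLM
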