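import Pool.Agent.HLM.Basic

/-!
# HLM-BWD: the second implication
-/

set_option autoImplicit false

open Filter Topology

namespace Pool.Agent.HLM

/-- The intersection of the kernels of the finite-dimensional unitary representations. -/
def rad (G : Type) [Group G] : Subgroup G :=
  ⨅ (k : ℕ) (ρ : G →* U k), ρ.ker

theorem mem_rad (G : Type) [Group G] (g : G) :
    g ∈ rad G ↔ ∀ (k : ℕ) (ρ : G →* U k), ρ g = 1 := by
  simp [rad, Subgroup.mem_iInf, MonoidHom.mem_ker]

instance rad_normal (G : Type) [Group G] : (rad G).Normal where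
  conj_mem := by
    intro a ha g
    rw [mem_rad] at ha ⊢
    intro k ρ
    simp [ha k ρ]

theorem rad_pi (G : Type) [Group G] {k : ℕ → ℕ} (ρ : G →* (∀ n, U (k n))) (g : G)
    (hg : g ∈ rad G) : ρ g = 1 := by
  funext n
  exact (mem_rad G g).1 hg (k n) ((Pi.evalMonoidHom _ n).comp ρ)

theorem p_BWD (hT : T_NORM) : T_BWD := by
  intro ha hb G _ _ hG
  have hh := good_hs hT
  have ho := good_op hT
  -- the quotient by the radical
  have hmap : MAP (G ⧸ rad G) := by
    intro x hx
    obtain ⟨g, rfl⟩ := QuotientGroup.mk_surjective x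
    have hg : g ∉ rad G := by
      intro h
      exact hx ((QuotientGroup.eq_one_iff g).2 h)
    rw [mem_rad] at hg
    push Not at hg
    obtain ⟨k, ρ, hρ⟩ := hg
    have h1 : rad G ≤ ρ.ker := fun a h => MonoidHom.mem_ker.2 ((mem_rad G a).1 h k ρ)
    refine ⟨k, QuotientGroup.lift (rad G) ρ h1, ?_⟩
    rw [QuotientGroup.lift_mk]
    exact hρ
  have hst : Stable op (G ⧸ rad G) := by
    rw [stable_iff ho] at hG ⊢
    intro k F
    obtain ⟨ρ, hρ⟩ := hG k (F.comp (QuotientGroup.mk' (rad G)))
    have h1 : rad G ≤ ρ.ker := fun a h => MonoidHom.mem_ker.2 (rad_pi G ρ a h)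
    refine ⟨QuotientGroup.lift (rad G) ρ h1, fun x => ?_⟩
    obtain ⟨g, rfl⟩ := QuotientGroup.mk_surjective x
    rw [QuotientGroup.lift_mk]
    exact hρ g
  have : Countable (G ⧸ rad G) := (QuotientGroup.mk_surjective (s := rad G)).countable
  have hsh : Stable hs (G ⧸ rad G) := hb _ hmap hst
  rw [stable_iff hh] at hsh ⊢
  rw [stable_iff ho] at hG
  intro k F
  -- the kernel of `F` contains the radical
  have hker : rad G ≤ F.ker := by
    have h1 : Approx hs (G ⧸ F.ker) := by
      rw [approx_iff hh]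
      refine ⟨k, QuotientGroup.kerLift F, fun g hg => ?_⟩
      exact QuotientGroup.kerLift_injective F (by rw [hg, map_one])
    have : Countable (G ⧸ F.ker) := (QuotientGroup.mk_surjective (s := F.ker)).countable
    have h2 := ha _ h1
    rw [approx_iff ho] at h2
    obtain ⟨l, F', hF'⟩ := h2
    obtain ⟨ρ, hρ⟩ := hG l (F'.comp (QuotientGroup.mk' F.ker))
    intro r hr
    have h3 := hρ r
    rw [rad_pi G ρ r hr] at h3
    have h4 := hF' _ h3
    exact (QuotientGroup.eq_one_iff r).1 h4
  obtain ⟨ρ, hρ⟩ := hsh k (QuotientGroup.lift (rad G) F hker)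
  refine ⟨ρ.comp (QuotientGroup.mk' (rad G)), fun g => ?_⟩
  have := hρ (QuotientGroup.mk g)
  simpa using this

end Pool.Agent.HLM
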