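import Pool.Agent.HLM.Targets

/-!
# HLM: the groups `∏ U(k n)` modulo null sequences
-/

set_option autoImplicit false

open Filter Topology

namespace Pool.Agent.HLM

/-- The properties of a size function which are used. -/
structure Good (N : ∀ {k : ℕ}, Matrix (Fin k) (Fin k) ℂ → ℝ) : Prop where
  nonneg : ∀ {k : ℕ} (A : Matrix (Fin k) (Fin k) ℂ), 0 ≤ N A
  add : ∀ {k : ℕ} (A B : Matrix (Fin k) (Fin k) ℂ), N (A + B) ≤ 2 * (N A + N B)
  neg : ∀ {k : ℕ} (A : Matrix (Fin k) (Fin k) ℂ), N (-A) = N A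
  uni : ∀ {k : ℕ} (A : Matrix (Fin k) (Fin k) ℂ) (u v : U k), N (u.val * A * v.val) = N A
  zero : ∀ {k : ℕ}, N (0 : Matrix (Fin k) (Fin k) ℂ) = 0

theorem good_hs (h : T_NORM) : Good hs where
  nonneg A := (h.1 _ A).1
  add A B := (h.2.1 _ A B).1
  neg A := (h.2.1 _ A 0).2.2.1
  uni A u v := (h.2.2.1 _ A u v).1
  zero := by intro k; simp [hs]

theorem good_op (h : T_NORM) : Good op where
  nonneg A := (h.1 _ A).2.1
  add A B := by
    have h1 := (h.2.1 _ A B).2.1
    have h2 := (h.1 _ A).2.1
    have h3 := (h.1 _ B).2.1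
    linarith
  neg A := (h.2.1 _ A 0).2.2.2
  uni A u v := (h.2.2.1 _ A u v).2
  zero := by intro k; simp [op]

variable {N : ∀ {k : ℕ}, Matrix (Fin k) (Fin k) ℂ → ℝ} {k : ℕ → ℕ}

/-- Two sequences of unitary matrices are asymptotically equal. -/
def Near (N : ∀ {k : ℕ}, Matrix (Fin k) (Fin k) ℂ → ℝ) (x y : ∀ n, U (k n)) : Prop :=
  Tendsto (fun n : ℕ => N ((x n).val - (y n).val)) atTop (𝓝 0)

theorem near_refl (hN : Good N) (x : ∀ n, U (k n)) : Near N x x := by
  unfold Near
  simp only [sub_self, hN.zero]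
  exact tendsto_const_nhds

theorem near_symm (hN : Good N) {x y : ∀ n, U (k n)} (h : Near N x y) : Near N y x := by
  unfold Near at *
  refine h.congr fun n => ?_
  change N ((x n).val - (y n).val) = N ((y n).val - (x n).val)
  have := hN.neg ((x n).val - (y n).val)
  rw [neg_sub] at this
  exact this.symm

theorem near_trans (hN : Good N) {x y z : ∀ n, U (k n)} (h : Near N x y) (h' : Near N y z) :
    Near N x z := by
  unfold Near at *
  have h1 := (h.add h').const_mul 2
  rw [add_zero, mul_zero] at h1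
  refine squeeze_zero (fun n => hN.nonneg _) (fun n => ?_) h1
  have h2 : (x n).val - (z n).val = ((x n).val - (y n).val) + ((y n).val - (z n).val) := by abel
  rw [h2]
  exact hN.add _ _

theorem near_mul_left (hN : Good N) {x y : ∀ n, U (k n)} (u : ∀ n, U (k n)) (h : Near N x y) :
    Near N (u * x) (u * y) := by
  unfold Near at *
  refine h.congr fun n => ?_
  change N ((x n).val - (y n).val) = N ((u n * x n : U (k n)).val - (u n * y n : U (k n)).val)
  have := hN.uni ((x n).val - (y n).val) (u n) 1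
  rw [← this]
  congr 1
  simp [mul_sub]

theorem near_mul_right (hN : Good N) {x y : ∀ n, U (k n)} (u : ∀ n, U (k n)) (h : Near N x y) :
    Near N (x * u) (y * u) := by
  unfold Near at *
  refine h.congr fun n => ?_
  change N ((x n).val - (y n).val) = N ((x n * u n : U (k n)).val - (y n * u n : U (k n)).val)
  have := hN.uni ((x n).val - (y n).val) 1 (u n)
  rw [← this]
  congr 1
  simp [sub_mul]

/-- The subgroup of the null sequences. -/
def nul (hN : Good N) (k : ℕ → ℕ) : Subgroup (∀ n, U (k n)) where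
  carrier := {x | Near N x 1}
  one_mem' := near_refl hN 1
  mul_mem' := by
    intro a b ha hb
    have h1 := near_mul_right hN b ha
    rw [one_mul] at h1
    exact near_trans hN h1 hb
  inv_mem' := by
    intro a ha
    have h1 := near_mul_left hN a⁻¹ ha
    rw [inv_mul_cancel, mul_one] at h1
    exact near_symm hN h1

theorem mem_nul (hN : Good N) (k : ℕ → ℕ) (x : ∀ n, U (k n)) : x ∈ nul hN k ↔ Near N x 1 :=
  Iff.rfl

instance nul_normal (hN : Good N) (k : ℕ → ℕ) : (nul hN k).Normal where
  conj_mem := by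
    intro a ha g
    have h1 := near_mul_right hN g⁻¹ (near_mul_left hN g ha)
    rw [mul_one, mul_inv_cancel] at h1
    exact h1

/-- Sequences of unitary matrices modulo null sequences. -/
abbrev QG (hN : Good N) (k : ℕ → ℕ) : Type := (∀ n, U (k n)) ⧸ nul hN k

theorem mk_eq (hN : Good N) (x y : ∀ n, U (k n)) :
    (QuotientGroup.mk x : QG hN k) = QuotientGroup.mk y ↔ Near N x y := by
  rw [QuotientGroup.eq, mem_nul]
  constructor
  · intro h
    have h1 := near_mul_left hN x h
    rw [mul_inv_cancel_left, mul_one] at h1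
    exact near_symm hN h1
  · intro h
    have h1 := near_mul_left hN x⁻¹ h
    rw [inv_mul_cancel] at h1
    exact near_symm hN h1

/-- The homomorphism defined by an asymptotic homomorphism. -/
theorem exists_hom (hN : Good N) {H : Type} [Group H] {φ : ∀ n, H → U (k n)}
    (h : AsympHom N φ) : ∃ F : H →* QG hN k, ∀ g, F g = QuotientGroup.mk (fun n => φ n g) := by
  have hmul : ∀ a b : H, (QuotientGroup.mk (fun n => φ n (a * b)) : QG hN k) =
      QuotientGroup.mk (fun n => φ n a) * QuotientGroup.mk (fun n => φ n b) := by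
    intro a b
    rw [← QuotientGroup.mk_mul]
    rw [mk_eq]
    exact h a b
  refine ⟨⟨⟨fun g => QuotientGroup.mk (fun n => φ n g), ?_⟩, hmul⟩, fun g => rfl⟩
  have h1 := hmul 1 1
  rw [mul_one] at h1
  exact (mul_eq_left.1 h1.symm)

theorem exists_rep (hN : Good N) {H : Type} [Group H] (F : H →* QG hN k) :
    ∃ φ : ∀ n, H → U (k n), AsympHom N φ ∧ ∀ g, F g = QuotientGroup.mk (fun n => φ n g) := by
  refine ⟨fun n g => (Quotient.out (F g)) n, ?_, fun g => ?_⟩
  · intro a b
    have h1 : (QuotientGroup.mk (Quotient.out (F (a * b))) : QG hN k) =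
        QuotientGroup.mk (Quotient.out (F a) * Quotient.out (F b)) := by
      rw [QuotientGroup.mk_mul, QuotientGroup.out_eq', QuotientGroup.out_eq',
        QuotientGroup.out_eq', map_mul]
    exact (mk_eq hN _ _).1 h1
  · exact (QuotientGroup.out_eq' (F g)).symm

/-- Stability is a lifting property. -/
theorem stable_iff (hN : Good N) (H : Type) [Group H] : Stable N H ↔
    ∀ (k : ℕ → ℕ) (F : H →* QG hN k), ∃ ρ : H →* (∀ n, U (k n)),
      ∀ g, F g = QuotientGroup.mk (ρ g) := by
  constructor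
  · intro h k F
    obtain ⟨φ, h1, h2⟩ := exists_rep hN F
    obtain ⟨ρ, hρ⟩ := h k φ h1
    refine ⟨MonoidHom.pi ρ, fun g => ?_⟩
    rw [h2, mk_eq]
    exact hρ g
  · intro h k φ hφ
    obtain ⟨F, hF⟩ := exists_hom hN hφ
    obtain ⟨ρ, hρ⟩ := h k F
    refine ⟨fun n => (Pi.evalMonoidHom _ n).comp ρ, fun g => ?_⟩
    have h1 := hρ g
    rw [hF, mk_eq] at h1
    exact h1

/-- Approximability is an embedding property. -/
theorem approx_iff (hN : Good N) (H : Type) [Group H] : Approx N H ↔
    ∃ (k : ℕ → ℕ) (F : H →* QG hN k), ∀ g, F g = 1 → g = 1 := by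
  constructor
  · rintro ⟨k, φ, h1, h2⟩
    obtain ⟨F, hF⟩ := exists_hom hN h1
    refine ⟨k, F, fun g hg => ?_⟩
    by_contra hne
    refine h2 g hne ?_
    rw [hF, ← QuotientGroup.mk_one, mk_eq] at hg
    exact hg
  · rintro ⟨k, F, hF⟩
    obtain ⟨φ, h1, h2⟩ := exists_rep hN F
    refine ⟨k, φ, h1, fun g hne ht => hne (hF g ?_)⟩
    rw [h2, ← QuotientGroup.mk_one, mk_eq]
    exact ht

end Pool.Agent.HLM
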