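import Pool.Agent.HLM.Targets

/-!
# DIAG: a unitary matrix is diagonal in an orthonormal basis (helper67)
-/

set_option autoImplicit false

open Filter Topology

namespace Pool.Agent.HLM

namespace DIAG_

/-- a point of the circle which is not an eigenvalue -/
lemma exists_point {n : ℕ} (M : Matrix (Fin n) (Fin n) ℂ) :
    ∃ z : Circle, M.charpoly.eval (z : ℂ) ≠ 0 := by
  by_contra h
  push Not at h
  have h0 : M.charpoly = 0 := by
    apply Polynomial.eq_zero_of_infinite_isRoot
    have h1 : (Set.range (fun m : ℕ => ((Circle.exp (1 / ((m : ℝ) + 1)) : Circle) : ℂ))).Infinite := by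
      apply Set.infinite_range_of_injective
      intro a b hab
      have h2 : Circle.exp (1 / ((a : ℝ) + 1)) = Circle.exp (1 / ((b : ℝ) + 1)) :=
        Circle.coe_injective hab
      have hpi := Real.pi_gt_three
      have h3 : ∀ m : ℕ, (1 : ℝ) / (m + 1) ∈ Set.Ioc (-Real.pi) Real.pi := by
        intro m
        have h4 : (0 : ℝ) < 1 / ((m : ℝ) + 1) := by positivity
        have h5 : (1 : ℝ) / ((m : ℝ) + 1) ≤ 1 := by
          rw [div_le_one (by positivity)]
          have : (0 : ℝ) ≤ m := Nat.cast_nonneg m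
          linarith
        constructor <;> linarith
      have h6 : (1 : ℝ) / ((a : ℝ) + 1) = 1 / ((b : ℝ) + 1) := by
        have ha := Circle.arg_exp (h3 a).1 (h3 a).2
        have hb := Circle.arg_exp (h3 b).1 (h3 b).2
        rw [← ha, ← hb, h2]
      have h7 : (a : ℝ) + 1 = b + 1 := by
        have ha : (a : ℝ) + 1 ≠ 0 := by positivity
        have hb : (b : ℝ) + 1 ≠ 0 := by positivity
        field_simp at h6
        linarith
      have h8 : (a : ℝ) = b := by linarith
      exact_mod_cast h8
    refine h1.mono ?_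
    rintro _ ⟨m, rfl⟩
    exact h _
  exact M.charpoly_monic.ne_zero h0

lemma norm_quot (a : ℝ) : ‖((a : ℂ) - Complex.I) / ((a : ℂ) + Complex.I)‖ = 1 := by
  have h1 : ((a : ℂ) + Complex.I) ≠ 0 := by
    intro h
    have := congrArg Complex.im h
    simp at this
  have h2 : ((a : ℂ) - Complex.I) = (starRingEnd ℂ) ((a : ℂ) + Complex.I) := by
    simp [sub_eq_add_neg]
  rw [norm_div, h2, RCLike.norm_conj, div_self]
  simpa using h1

end DIAG_

open DIAG_ in
theorem p_DIAG : T_DIAG := by
  intro n u
  obtain ⟨z, hz⟩ := exists_point u.val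
  rw [Matrix.eval_charpoly] at hz
  set M : Matrix (Fin n) (Fin n) ℂ := u.val with hM
  set C : Matrix (Fin n) (Fin n) ℂ := (z : ℂ) • 1 - M with hC
  have hCdet : IsUnit C.det := by
    rw [isUnit_iff_ne_zero]
    convert hz using 2
    rw [hC, Matrix.scalar_apply, ← Matrix.smul_one_eq_diagonal]
  set B := C⁻¹ with hB
  have hCB : C * B = 1 := Matrix.mul_nonsing_inv C hCdet
  have hBC : B * C = 1 := Matrix.nonsing_inv_mul C hCdet
  have hzz : (starRingEnd ℂ) (z : ℂ) * z = 1 := by
    rw [mul_comm, Complex.mul_conj, Circle.normSq_coe]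
    simp
  have huu : Matrix.conjTranspose M * M = 1 := by
    have := u.2
    rw [Matrix.mem_unitaryGroup_iff'] at this
    exact this
  set A : Matrix (Fin n) (Fin n) ℂ := Complex.I • (((z : ℂ) • 1 + M) * B) with hA
  have hAC : A * C = Complex.I • ((z : ℂ) • 1 + M) := by
    rw [hA, Matrix.smul_mul, Matrix.mul_assoc, hBC, Matrix.mul_one]
  have hAh : A.IsHermitian := by
    unfold Matrix.IsHermitian
    -- compare after multiplication by `Cᴴ` on the left and `C` on the right
    have hC1 : Matrix.conjTranspose C * Matrix.conjTranspose B = 1 := by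
      rw [← Matrix.conjTranspose_mul, hBC, Matrix.conjTranspose_one]
    have hC2 : Matrix.conjTranspose B * Matrix.conjTranspose C = 1 := by
      rw [← Matrix.conjTranspose_mul, hCB, Matrix.conjTranspose_one]
    have key : Matrix.conjTranspose C * Matrix.conjTranspose A * C =
        Matrix.conjTranspose C * A * C := by
      have e1 : Matrix.conjTranspose C * Matrix.conjTranspose A =
          Matrix.conjTranspose (A * C) := by rw [Matrix.conjTranspose_mul]
      rw [e1, hAC, Matrix.mul_assoc, hAC]
      rw [hC]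
      simp only [Matrix.conjTranspose_smul, Matrix.conjTranspose_add, Matrix.conjTranspose_sub,
        Matrix.conjTranspose_one]
      simp only [Matrix.smul_mul, Matrix.mul_smul, Matrix.add_mul, Matrix.mul_add,
        Matrix.sub_mul, Matrix.mul_sub, Matrix.one_mul, Matrix.mul_one, huu]
      simp only [Complex.star_def, Complex.conj_I, smul_add, smul_sub, smul_smul]
      have e2 : (z : ℂ) * (starRingEnd ℂ) (z : ℂ) = 1 := by rw [mul_comm]; exact hzz
      ext i j
      simp only [Matrix.add_apply, Matrix.sub_apply, Matrix.smul_apply, smul_eq_mul]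
      linear_combination (-Complex.I * (1 : Matrix (Fin n) (Fin n) ℂ) i j * 2) * hzz
    calc Matrix.conjTranspose A
        = Matrix.conjTranspose B * (Matrix.conjTranspose C * Matrix.conjTranspose A * C) * B := by
          have : Matrix.conjTranspose B *
              (Matrix.conjTranspose C * Matrix.conjTranspose A * C) * B =
              (Matrix.conjTranspose B * Matrix.conjTranspose C) * Matrix.conjTranspose A *
                (C * B) := by simp only [Matrix.mul_assoc]
          rw [this, hC2, hCB, Matrix.one_mul, Matrix.mul_one]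
      _ = Matrix.conjTranspose B * (Matrix.conjTranspose C * A * C) * B := by rw [key]
      _ = A := by
          have : Matrix.conjTranspose B * (Matrix.conjTranspose C * A * C) * B =
              (Matrix.conjTranspose B * Matrix.conjTranspose C) * A * (C * B) := by
            simp only [Matrix.mul_assoc]
          rw [this, hC2, hCB, Matrix.one_mul, Matrix.mul_one]
  -- the spectral theorem
  set W : U n := hAh.eigenvectorUnitary with hW
  set a : Fin n → ℝ := hAh.eigenvalues with ha
  have hspec : star (W : Matrix (Fin n) (Fin n) ℂ) * A * (W : Matrix (Fin n) (Fin n) ℂ) =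
      Matrix.diagonal (fun i => (a i : ℂ)) := by
    have := hAh.conjStarAlgAut_star_eigenvectorUnitary
    rw [Unitary.conjStarAlgAut_star_apply] at this
    exact this
  have hWW : star (W : Matrix (Fin n) (Fin n) ℂ) * (W : Matrix (Fin n) (Fin n) ℂ) = 1 := by
    have := W.2
    rw [Matrix.mem_unitaryGroup_iff'] at this
    exact this
  have hWW' : (W : Matrix (Fin n) (Fin n) ℂ) * star (W : Matrix (Fin n) (Fin n) ℂ) = 1 := by
    have := W.2
    rw [Matrix.mem_unitaryGroup_iff] at this
    exact this
  set N : Matrix (Fin n) (Fin n) ℂ := star (W : Matrix (Fin n) (Fin n) ℂ) * M * W with hN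
  have hrel : (z : ℂ) • (A - Complex.I • 1) = (A + Complex.I • 1) * M := by
    rw [hC] at hAC
    rw [Matrix.mul_sub, Matrix.mul_smul, Matrix.mul_one] at hAC
    have e0 : (Complex.I • (1 : Matrix (Fin n) (Fin n) ℂ)) * M = Complex.I • M := by
      rw [Matrix.smul_mul, Matrix.one_mul]
    rw [Matrix.add_mul, e0, smul_sub]
    have e3 : (z : ℂ) • A = A * M + Complex.I • ((z : ℂ) • (1 : Matrix (Fin n) (Fin n) ℂ) + M) := by
      rw [← hAC]
      abel
    rw [e3, smul_add, smul_comm]
    abel
  have hrel2 : (z : ℂ) • (Matrix.diagonal (fun i => (a i : ℂ)) - Complex.I • 1) =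
      (Matrix.diagonal (fun i => (a i : ℂ)) + Complex.I • 1) * N := by
    have e4 : star (W : Matrix (Fin n) (Fin n) ℂ) * ((z : ℂ) • (A - Complex.I • 1)) * W =
        star (W : Matrix (Fin n) (Fin n) ℂ) * ((A + Complex.I • 1) * M) * W := by rw [hrel]
    have e5 : star (W : Matrix (Fin n) (Fin n) ℂ) * ((z : ℂ) • (A - Complex.I • 1)) * W =
        (z : ℂ) • (Matrix.diagonal (fun i => (a i : ℂ)) - Complex.I • 1) := by
      rw [Matrix.mul_smul, Matrix.smul_mul, Matrix.mul_sub, Matrix.sub_mul, hspec,
        Matrix.mul_smul, Matrix.smul_mul, Matrix.mul_one, hWW]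
    have e6 : star (W : Matrix (Fin n) (Fin n) ℂ) * ((A + Complex.I • 1) * M) * W =
        (Matrix.diagonal (fun i => (a i : ℂ)) + Complex.I • 1) * N := by
      have e7 : Matrix.diagonal (fun i => (a i : ℂ)) + Complex.I • 1 =
          star (W : Matrix (Fin n) (Fin n) ℂ) * (A + Complex.I • 1) * W := by
        rw [Matrix.mul_add, Matrix.add_mul, hspec, Matrix.mul_smul, Matrix.smul_mul,
          Matrix.mul_one, hWW]
      rw [e7, hN]
      calc star (W : Matrix (Fin n) (Fin n) ℂ) * ((A + Complex.I • 1) * M) * W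
          = star (W : Matrix (Fin n) (Fin n) ℂ) * (A + Complex.I • 1) * 1 * M * W := by
            rw [Matrix.mul_one]
            simp only [Matrix.mul_assoc]
        _ = star (W : Matrix (Fin n) (Fin n) ℂ) * (A + Complex.I • 1) *
            ((W : Matrix (Fin n) (Fin n) ℂ) * star (W : Matrix (Fin n) (Fin n) ℂ)) * M * W := by
            rw [hWW']
        _ = star (W : Matrix (Fin n) (Fin n) ℂ) * (A + Complex.I • 1) * W *
            (star (W : Matrix (Fin n) (Fin n) ℂ) * M * W) := by
            simp only [Matrix.mul_assoc]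
    rw [← e5, e4, e6]
  have hne : ∀ i, ((a i : ℂ) + Complex.I) ≠ 0 := by
    intro i h
    have := congrArg Complex.im h
    simp at this
  have hd : ∀ i, ‖(z : ℂ) * (((a i : ℂ) - Complex.I) / ((a i : ℂ) + Complex.I))‖ = 1 := by
    intro i
    rw [norm_mul, norm_quot, Circle.norm_coe, one_mul]
  refine ⟨W, fun i => ⟨(z : ℂ) * (((a i : ℂ) - Complex.I) / ((a i : ℂ) + Complex.I)),
    mem_sphere_zero_iff_norm.mpr (hd i)⟩, ?_⟩
  -- the entries of `N`
  have hNd : N = Matrix.diagonal (fun i =>
      (z : ℂ) * (((a i : ℂ) - Complex.I) / ((a i : ℂ) + Complex.I))) := by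
    ext i j
    have e8 := congrFun (congrFun hrel2 i) j
    have e9 : ((Matrix.diagonal (fun i => (a i : ℂ)) + Complex.I • 1) * N) i j =
        ((a i : ℂ) + Complex.I) * N i j := by
      rw [← Matrix.diagonal_one, ← Matrix.diagonal_smul, Matrix.diagonal_add,
        Matrix.diagonal_mul]
      simp
    rw [e9] at e8
    have e10 : N i j = ((z : ℂ) • (Matrix.diagonal (fun i => (a i : ℂ)) -
        Complex.I • (1 : Matrix (Fin n) (Fin n) ℂ))) i j / ((a i : ℂ) + Complex.I) := by
      rw [e8]
      field_simp [hne i]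
    rw [e10]
    by_cases hij : i = j
    · subst hij
      simp
      ring
    · simp [hij]
  apply Subtype.ext
  have e11 : ((W * dU (fun i => (⟨(z : ℂ) * (((a i : ℂ) - Complex.I) / ((a i : ℂ) + Complex.I)),
      mem_sphere_zero_iff_norm.mpr (hd i)⟩ : Circle)) * W⁻¹ : U n) :
      Matrix (Fin n) (Fin n) ℂ) =
      (W : Matrix (Fin n) (Fin n) ℂ) * Matrix.diagonal (fun i =>
        (z : ℂ) * (((a i : ℂ) - Complex.I) / ((a i : ℂ) + Complex.I))) *
        star (W : Matrix (Fin n) (Fin n) ℂ) := rfl
  rw [e11, ← hNd, hN]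
  calc (u : Matrix (Fin n) (Fin n) ℂ) = 1 * M * 1 := by rw [Matrix.one_mul, Matrix.mul_one]
    _ = ((W : Matrix (Fin n) (Fin n) ℂ) * star (W : Matrix (Fin n) (Fin n) ℂ)) * M *
        ((W : Matrix (Fin n) (Fin n) ℂ) * star (W : Matrix (Fin n) (Fin n) ℂ)) := by rw [hWW']
    _ = (W : Matrix (Fin n) (Fin n) ℂ) * (star (W : Matrix (Fin n) (Fin n) ℂ) * M * W) *
        star (W : Matrix (Fin n) (Fin n) ℂ) := by simp only [Matrix.mul_assoc]

end Pool.Agent.HLM
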