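import Mathlib

/-!
# Matricial stability, Hilbert-Schmidt stability and hyperlinear groups (MP_a51306_an)

Definitions and basic objects of the project HLM.
-/

set_option autoImplicit false

open Filter Topology

namespace Pool.Agent.HLM

/-- The square of the normalized Hilbert-Schmidt norm of a `k × k` matrix. -/
noncomputable def hs {k : ℕ} (A : Matrix (Fin k) (Fin k) ℂ) : ℝ :=
  (Matrix.trace (Matrix.conjTranspose A * A)).re / (k : ℝ)

/-- The operator norm of a `k × k` matrix. -/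
noncomputable def op {k : ℕ} (A : Matrix (Fin k) (Fin k) ℂ) : ℝ :=
  ‖Matrix.toEuclideanCLM (𝕜 := ℂ) A‖

/-- The group of unitary `k × k` matrices. -/
abbrev U (k : ℕ) : Type := Matrix.unitaryGroup (Fin k) ℂ

/-- `φ` is an asymptotic homomorphism for the size function `N`. -/
def AsympHom {H : Type} [Group H] (N : ∀ {k : ℕ}, Matrix (Fin k) (Fin k) ℂ → ℝ)
    {k : ℕ → ℕ} (φ : ∀ n : ℕ, H → U (k n)) : Prop :=
  ∀ g h : H, Tendsto (fun n : ℕ => N ((φ n (g * h)).val - (φ n g).val * (φ n h).val)) atTop (𝓝 0)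

/-- `φ` and `ψ` are asymptotically equal for the size function `N`. -/
def AsympEq {H : Type} (N : ∀ {k : ℕ}, Matrix (Fin k) (Fin k) ℂ → ℝ)
    {k : ℕ → ℕ} (φ ψ : ∀ n : ℕ, H → U (k n)) : Prop :=
  ∀ g : H, Tendsto (fun n : ℕ => N ((φ n g).val - (ψ n g).val)) atTop (𝓝 0)

/-- The group `H` is stable for the size function `N`. -/
def Stable (N : ∀ {k : ℕ}, Matrix (Fin k) (Fin k) ℂ → ℝ) (H : Type) [Group H] : Prop :=
  ∀ (k : ℕ → ℕ) (φ : ∀ n : ℕ, H → U (k n)), AsympHom N φ →
    ∃ ρ : ∀ n : ℕ, H →* U (k n), AsympEq N φ (fun n g => ρ n g)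

/-- The group `H` embeds in the product of the groups `U (k n)` modulo the sequences tending to
`1` for the size function `N`. For `N = hs` these are the hyperlinear groups, for `N = op` the
MF groups. -/
def Approx (N : ∀ {k : ℕ}, Matrix (Fin k) (Fin k) ℂ → ℝ) (H : Type) [Group H] : Prop :=
  ∃ (k : ℕ → ℕ) (φ : ∀ n : ℕ, H → U (k n)), AsympHom N φ ∧
    ∀ g : H, g ≠ 1 → ¬ Tendsto (fun n : ℕ => N ((φ n g).val - 1)) atTop (𝓝 0)

/-- The group `H` is maximally almost periodic: the finite-dimensional unitary representations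
separate the points. -/
def MAP (H : Type) [Group H] : Prop := ∀ g : H, g ≠ 1 → ∃ (k : ℕ) (ρ : H →* U k), ρ g ≠ 1

/-- The products of `L` elements of the form `(a u a⁻¹) (b u⁻¹ b⁻¹)`. -/
def Pr {G : Type} [Group G] (u : G) : ℕ → Set G
  | 0 => {1}
  | L + 1 => {x | ∃ a b : G, ∃ y ∈ Pr u L, x = a * u * a⁻¹ * (b * u⁻¹ * b⁻¹) * y}

/-- The diagonal unitary matrix with entries `d`. -/
noncomputable def dU {n : ℕ} : (Fin n → Circle) →* U n where
  toFun d := ⟨Matrix.diagonal (fun i => (d i : ℂ)), by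
    rw [Matrix.mem_unitaryGroup_iff, Matrix.star_eq_conjTranspose, Matrix.diagonal_conjTranspose,
      Matrix.diagonal_mul_diagonal, ← Matrix.diagonal_one]
    congr 1
    funext i
    have h := Circle.normSq_coe (d i)
    simp only [Pi.star_apply, Complex.star_def, Complex.mul_conj, h]
    simp⟩
  map_one' := by
    apply Subtype.ext
    simp
  map_mul' a b := by
    apply Subtype.ext
    simp [Matrix.diagonal_mul_diagonal]

/-- `d` is `1` outside `m` disjoint pairs, and has product `1` on every pair. -/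
def Paired {n : ℕ} (m : ℕ) (d : Fin n → Circle) : Prop :=
  ∃ s t : Fin m → Fin n, Function.Injective (Sum.elim s t) ∧ (∀ j, d (s j) * d (t j) = 1) ∧
    ∀ i, (∀ j, s j ≠ i) → (∀ j, t j ≠ i) → d i = 1

/-- The elements far from the scalars. -/
def Far {n : ℕ} (δ : ℝ) (u : U n) : Prop := ∀ z : ℂ, δ ≤ hs (u.val - z • 1)

end Pool.Agent.HLM
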