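import Pool.Agent.HLM.Targets

/-!
# Project HLM (MP_a51306_an): the embedding theorem (helper97)
-/

set_option autoImplicit false

open Filter Topology

namespace Pool.Agent.HLM

namespace EMB_

section norms

variable {k : ℕ}

lemma hs_zero : hs (0 : Matrix (Fin k) (Fin k) ℂ) = 0 := by simp [hs]

lemma hs_lmul (hN : T_NORM) (u : U k) (A : Matrix (Fin k) (Fin k) ℂ) :
    hs (u.val * A) = hs A := by
  have := (hN.2.2.1 k A u 1).1
  simpa using this

lemma hs_inv_mul (hN : T_NORM) (u v : U k) :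
    hs ((u⁻¹ * v).val - 1) = hs (v.val - u.val) := by
  have h : (u⁻¹ * v).val - 1 = (u⁻¹).val * (v.val - u.val) := by
    rw [mul_sub]
    have h1 : (u⁻¹).val * u.val = 1 := congrArg Subtype.val (inv_mul_cancel u)
    rw [h1]
    rfl
  rw [h, hs_lmul hN]

lemma hs_sub_comm (hN : T_NORM) (A B : Matrix (Fin k) (Fin k) ℂ) :
    hs (A - B) = hs (B - A) := by
  rw [← neg_sub, (hN.2.1 k (B - A) 0).2.2.1]

lemma hs_conj (hN : T_NORM) (u v : U k) :
    hs ((v * u * v⁻¹).val - 1) = hs (u.val - 1) := by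
  have h : (v * u * v⁻¹).val - 1 = v.val * (u.val - 1) * (v⁻¹).val := by
    have h1 : v.val * (v⁻¹).val = 1 := congrArg Subtype.val (mul_inv_cancel v)
    rw [mul_sub, sub_mul, mul_one, h1]
    rfl
  rw [h]
  exact (hN.2.2.1 k _ v v⁻¹).1

lemma hs_mul (hN : T_NORM) (u v : U k) :
    hs ((u * v).val - 1) ≤ 2 * (hs (v.val - 1) + hs (u.val - 1)) := by
  have h : (u * v).val - 1 = u.val * (v.val - 1) + (u.val - 1) := by
    rw [mul_sub, mul_one]
    simp
  rw [h]
  refine (hN.2.1 k _ _).1.trans ?_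
  rw [hs_lmul hN]

end norms

/-- the sequences tending to `1` -/
def null (hN : T_NORM) (k : ℕ → ℕ) : Subgroup (∀ n, U (k n)) where
  carrier := {x | Tendsto (fun n => hs ((x n).val - 1)) atTop (𝓝 0)}
  one_mem' := by
    have h : ∀ n, hs (((1 : ∀ n, U (k n)) n).val - 1) = 0 := by
      intro n
      have : ((1 : ∀ n, U (k n)) n).val - 1 = 0 := sub_self _
      rw [this, hs_zero]
    show Tendsto (fun n => hs (((1 : ∀ n, U (k n)) n).val - 1)) atTop (𝓝 0)
    simp only [h]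
    exact tendsto_const_nhds
  mul_mem' := by
    intro x y hx hy
    have hx' : Tendsto (fun n => hs ((x n).val - 1)) atTop (𝓝 0) := hx
    have hy' : Tendsto (fun n => hs ((y n).val - 1)) atTop (𝓝 0) := hy
    have h := (hy'.add hx').const_mul 2
    rw [add_zero, mul_zero] at h
    exact squeeze_zero (fun n => (hN.1 _ _).1) (fun n => hs_mul hN (x n) (y n)) h
  inv_mem' := by
    intro x hx
    have hx' : Tendsto (fun n => hs ((x n).val - 1)) atTop (𝓝 0) := hx
    show Tendsto (fun n => hs (((x⁻¹) n).val - 1)) atTop (𝓝 0)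
    refine hx'.congr fun n => ?_
    have h := hs_inv_mul hN (x n) 1
    rw [mul_one] at h
    rw [hs_sub_comm hN]
    exact h.symm

lemma mem_null (hN : T_NORM) (k : ℕ → ℕ) (x y : ∀ n, U (k n)) :
    x⁻¹ * y ∈ null hN k ↔ Tendsto (fun n => hs ((y n).val - (x n).val)) atTop (𝓝 0) := by
  show Tendsto (fun n => hs ((((x⁻¹ * y : ∀ n, U (k n))) n).val - 1)) atTop (𝓝 0) ↔ _
  have h : ∀ n, hs ((((x⁻¹ * y : ∀ n, U (k n))) n).val - 1) = hs ((y n).val - (x n).val) :=
    fun n => hs_inv_mul hN (x n) (y n)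
  simp only [h]

lemma null_normal (hN : T_NORM) (k : ℕ → ℕ) : (null hN k).Normal := by
  refine ⟨fun x hx y => ?_⟩
  have hx' : Tendsto (fun n => hs ((x n).val - 1)) atTop (𝓝 0) := hx
  exact hx'.congr fun n => (hs_conj hN (x n) (y n)).symm

lemma pr_pi {I : Type} {G : I → Type} [∀ i, Group (G i)] (u : ∀ i, G i) (L : ℕ) :
    ∀ x : ∀ i, G i, (∀ i, x i ∈ Pr (u i) L) → x ∈ Pr u L := by
  induction L with
  | zero =>
    intro x hx
    have : x = 1 := funext fun i => hx i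
    exact this
  | succ L ih =>
    intro x hx
    choose a b y hy hxy using hx
    exact ⟨a, b, y, ih y hy, funext hxy⟩

lemma cset {Q : Type} [Group Q] (u : Q) (L : ℕ) : ∀ y ∈ Pr u L, ∃ C : Set Q, C.Countable ∧
    ∀ (S : Subgroup Q) (hu : u ∈ S), C ⊆ S → ∀ N : Subgroup S, N.Normal → ⟨u, hu⟩ ∈ N →
      ∃ hy : y ∈ S, (⟨y, hy⟩ : S) ∈ N := by
  induction L with
  | zero =>
    intro y hy
    have h1 : y = 1 := hy
    subst h1
    exact ⟨∅, Set.countable_empty, fun S _ _ N _ _ => ⟨S.one_mem, N.one_mem⟩⟩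
  | succ L ih =>
    rintro y ⟨a, b, z, hz, rfl⟩
    obtain ⟨C, hC, hCS⟩ := ih z hz
    refine ⟨{a, b} ∪ C, (Set.toFinite {a, b}).countable.union hC, ?_⟩
    intro S hu hS N hNn huN
    have ha : a ∈ S := hS (Or.inl (Or.inl rfl))
    have hb : b ∈ S := hS (Or.inl (Or.inr rfl))
    obtain ⟨hzS, hzN⟩ := hCS S hu (fun c hc => hS (Or.inr hc)) N hNn huN
    have h1 : (⟨a, ha⟩ : S) * ⟨u, hu⟩ * (⟨a, ha⟩ : S)⁻¹ ∈ N := hNn.conj_mem _ huN _
    have h2 : (⟨b, hb⟩ : S) * (⟨u, hu⟩ : S)⁻¹ * (⟨b, hb⟩ : S)⁻¹ ∈ N :=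
      hNn.conj_mem _ (N.inv_mem huN) _
    have h3 := N.mul_mem (N.mul_mem h1 h2) hzN
    exact ⟨_, h3⟩

lemma countable_closure {G : Type} [Group G] {s : Set G} (hs : s.Countable) :
    ((Subgroup.closure s : Subgroup G) : Set G).Countable := by
  have h0 : Countable s := hs.to_subtype
  rw [FreeGroup.closure_eq_range]
  have h1 : Countable (FreeGroup s) := Quot.mk_surjective.countable
  exact Set.countable_range _

/-- the subgroups `T i` -/
def tow {Q : Type} [Group Q] (C : Q → Set Q) (T₀ : Subgroup Q) : ℕ → Subgroup Q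
  | 0 => T₀
  | i + 1 => Subgroup.closure ((tow C T₀ i : Set Q) ∪ ⋃ y ∈ (tow C T₀ i : Set Q), C y)

lemma closed_sub {Q : Type} [Group Q] (C : Q → Set Q) (hC : ∀ y, (C y).Countable)
    (T₀ : Subgroup Q) (hT₀ : (T₀ : Set Q).Countable) :
    ∃ S : Subgroup Q, (S : Set Q).Countable ∧ T₀ ≤ S ∧ ∀ s ∈ S, C s ⊆ S := by
  have hTc : ∀ i, ((tow C T₀ i : Subgroup Q) : Set Q).Countable := by
    intro i
    induction i with
    | zero => exact hT₀
    | succ i ih => exact countable_closure (ih.union (ih.biUnion fun y _ => hC y))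
  have hTmono : Monotone (tow C T₀) := by
    refine monotone_nat_of_le_succ fun i => ?_
    intro x hx
    exact Subgroup.subset_closure (Or.inl hx)
  have hTC : ∀ i, ∀ y ∈ tow C T₀ i, C y ⊆ tow C T₀ (i + 1) := by
    intro i y hy c hc
    exact Subgroup.subset_closure (Or.inr (Set.mem_biUnion hy hc))
  have hmemS : ∀ x, x ∈ (⨆ i, tow C T₀ i) ↔ ∃ i, x ∈ tow C T₀ i := fun x =>
    Subgroup.mem_iSup_of_directed hTmono.directed_le
  refine ⟨⨆ i, tow C T₀ i, ?_, ?_, ?_⟩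
  · have h1 : ((⨆ i, tow C T₀ i : Subgroup Q) : Set Q) = ⋃ i, (tow C T₀ i : Set Q) := by
      ext x
      simp only [SetLike.mem_coe, Set.mem_iUnion]
      exact hmemS x
    rw [h1]
    exact Set.countable_iUnion hTc
  · exact fun x hx => (hmemS x).mpr ⟨0, hx⟩
  · intro s hs c hc
    obtain ⟨i, hi⟩ := (hmemS s).mp hs
    exact (hmemS c).mpr ⟨i + 1, hTC i s hi hc⟩

lemma exists_quot (hN : T_NORM) (k : ℕ → ℕ) : ∃ (Q : Type) (_ : Group Q)
    (mk : (∀ n, U (k n)) →* Q), Function.Surjective mk ∧ ∀ x y, mk x = mk y ↔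
      Tendsto (fun n => hs ((y n).val - (x n).val)) atTop (𝓝 0) := by
  have hnn : (null hN k).Normal := null_normal hN k
  refine ⟨(∀ n, U (k n)) ⧸ null hN k, inferInstance, QuotientGroup.mk' (null hN k),
    QuotientGroup.mk'_surjective _, fun x y => ?_⟩
  rw [← mem_null hN k x y]
  exact QuotientGroup.eq

lemma all_pr (hB : T_BNG) (hR : T_PR) (hN : T_NORM) {G : Type} [Group G] (g : G) (k : ℕ → ℕ)
    (φ : ∀ n, G → U (k n)) (δ : ℝ) (hδ : 0 < δ) (hk : Tendsto k atTop atTop)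
    (hfar : ∀ n, Far δ (φ n g)) (Q : Type) [Group Q] (mk : (∀ n, U (k n)) →* Q)
    (hmks : Function.Surjective mk) (hmk : ∀ x y, mk x = mk y ↔
      Tendsto (fun n => hs ((y n).val - (x n).val)) atTop (𝓝 0)) :
    ∃ L : ℕ, ∀ y : Q, y ∈ Pr (mk (fun n => φ n g)) L := by
  obtain ⟨L, n₀, hL⟩ := hB δ hδ
  refine ⟨L, fun y => ?_⟩
  obtain ⟨v, rfl⟩ := hmks y
  have hx : ∀ n, ∃ x ∈ Pr (φ n g) L, n₀ ≤ k n → hs ((v n).val - x.val) ≤ 4 / (k n : ℝ) := by
    intro n
    by_cases hn : n₀ ≤ k n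
    · obtain ⟨x, hx, hx'⟩ := hL (k n) (φ n g) (v n) hn (hfar n)
      exact ⟨x, hx, fun _ => hx'⟩
    · refine ⟨1, ?_, fun h => absurd h hn⟩
      exact (hR (U (k n)) (φ n g)).2.1 0 L 1 (Nat.zero_le L) rfl
  choose x hx hxn using hx
  have h1 : mk v = mk x := by
    rw [hmk]
    have h2 : Tendsto (fun n => 4 / (k n : ℝ)) atTop (𝓝 0) :=
      (tendsto_const_nhds.div_atTop (tendsto_natCast_atTop_atTop.comp hk))
    have h3 : ∀ᶠ n in atTop, n₀ ≤ k n := hk.eventually_ge_atTop n₀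
    refine squeeze_zero' (Eventually.of_forall fun n => (hN.1 _ _).1) ?_ h2
    filter_upwards [h3] with n hn
    rw [hs_sub_comm hN]
    exact hxn n hn
  rw [h1]
  have h4 : x ∈ Pr (fun n => φ n g) L := pr_pi _ L x hx
  exact (hR (∀ n, U (k n)) (fun n => φ n g)).2.2.2.2.2.2.2.2.2 Q mk L x h4

end EMB_

open EMB_ in
theorem p_EMB (hB : T_BNG) (hR : T_PR) (hN : T_NORM) : T_EMB := by
  intro G _ _ g k φ δ hδ hφ hk hfar
  obtain ⟨Q, _, mk, hmks, hmk⟩ := exists_quot hN k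
  obtain ⟨L, hall⟩ := all_pr hB hR hN g k φ δ hδ hk hfar Q mk hmks hmk
  obtain ⟨F, hF⟩ : ∃ F : G →* Q, ∀ h, F h = mk (fun n => φ n h) := by
    refine ⟨MonoidHom.mk' (fun h => mk (fun n => φ n h)) ?_, fun h => rfl⟩
    intro a b
    rw [← map_mul]
    rw [hmk]
    refine (hφ a b).congr fun n => ?_
    rw [hs_sub_comm hN]
    rfl
  rw [← hF g] at hall
  have hC : ∀ y : Q, ∃ C : Set Q, C.Countable ∧
      ∀ (S : Subgroup Q) (hu : F g ∈ S), C ⊆ S → ∀ N : Subgroup S, N.Normal →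
        ⟨F g, hu⟩ ∈ N → ∃ hy : y ∈ S, (⟨y, hy⟩ : S) ∈ N := fun y => cset (F g) L y (hall y)
  choose C hCc hCS using hC
  obtain ⟨S, hSc, hSF, hSC⟩ := closed_sub C hCc F.range (Set.countable_range F)
  have hScount : Countable S := hSc.to_subtype
  have hFS : ∀ h, F h ∈ S := fun h => hSF ⟨h, rfl⟩
  choose out hout using hmks
  refine ⟨S, inferInstance, hScount, F.codRestrict S hFS, fun n s => out s.1 n, ?_, ?_, ?_⟩
  · intro s t
    show Tendsto (fun n => hs ((out (s * t).1 n).val - (out s.1 n).val * (out t.1 n).val))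
      atTop (𝓝 0)
    have h1 : mk (out s.1 * out t.1) = mk (out (s * t).1) := by
      rw [map_mul, hout, hout, hout]
      rfl
    have h2 := (hmk (out s.1 * out t.1) (out (s * t).1)).mp h1
    refine h2.congr fun n => ?_
    have h3 : ((out s.1 * out t.1) n).val = (out s.1 n).val * (out t.1 n).val := rfl
    rw [h3]
  · intro h
    show Tendsto (fun n => hs ((φ n h).val - (out (F h) n).val)) atTop (𝓝 0)
    have h1 : mk (out (F h)) = mk (fun n => φ n h) := by
      rw [hout, hF]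
    exact (hmk (out (F h)) (fun n => φ n h)).mp h1
  · intro N hNn hgN
    rw [Subgroup.eq_top_iff']
    rintro ⟨s, hs⟩
    obtain ⟨_, h2⟩ := hCS s S (hFS g) (hSC s hs) N hNn hgN
    exact h2

end Pool.Agent.HLM
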