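import Pool.Agent.HLM.Basic

/-!
# HLM-FWD: the first implication
-/

set_option autoImplicit false

open Filter Topology

namespace Pool.Agent.HLM

theorem p_FWD (hA : T_AMP) (hE : T_EMB) (hM : T_MFC) (hT : T_NORM) : T_FWD := by
  intro hQ G _ _ hG
  have hh := good_hs hT
  have ho := good_op hT
  refine hM G ?_
  by_contra hcon
  push Not at hcon
  obtain ⟨g, hg1, hinv⟩ := hcon
  obtain ⟨k, φ, hφ, hvis⟩ := hG
  obtain ⟨δ, l, ψ, hδ, hψ, hl, hfar⟩ := hA G g k φ hφ (hvis g hg1)
  obtain ⟨S, _, _, f, σ, hσ, heq, hnorm⟩ := hE G g l ψ δ hδ hψ hl hfar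
  -- all homomorphisms of `S` to a quotient for the operator norm are trivial
  have htriv : ∀ (k' : ℕ → ℕ) (F : S →* QG ho k') (s : S), F s = 1 := by
    intro k' F s
    have h1 : f g ∈ F.ker := by
      obtain ⟨χ, hχ, hF⟩ := exists_rep ho (F.comp f)
      rw [MonoidHom.mem_ker]
      have h2 := hF g
      rw [MonoidHom.comp_apply] at h2
      rw [h2, ← QuotientGroup.mk_one, mk_eq]
      exact hinv k' χ hχ
    have h2 := hnorm F.ker inferInstance h1
    have h3 : s ∈ F.ker := by rw [h2]; trivial
    exact h3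
  have hop : Stable op S := by
    rw [stable_iff ho]
    intro k' F
    refine ⟨1, fun s => ?_⟩
    rw [htriv k' F s]
    rfl
  obtain ⟨ρ, hρ⟩ := hQ S hop l σ hσ
  have hone : ∀ (n : ℕ) (s : S), ρ n s = 1 := by
    intro n s
    have hcst : AsympHom op (k := fun _ => l n) (fun _ s => ρ n s) := by
      intro a b
      have h1 : (fun _ : ℕ => op ((ρ n (a * b)).val - (ρ n a).val * (ρ n b).val)) = fun _ => 0 := by
        funext _
        have h2 : (ρ n (a * b)).val - (ρ n a).val * (ρ n b).val = 0 := by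
          rw [map_mul]
          exact sub_self _
        rw [h2]
        exact ho.zero
      rw [h1]
      exact tendsto_const_nhds
    obtain ⟨F, hF⟩ := exists_hom ho hcst
    have h1 := htriv _ F s
    rw [hF s, ← QuotientGroup.mk_one, mk_eq] at h1
    have h2 : op ((ρ n s).val - 1) = 0 := tendsto_nhds_unique
      (tendsto_const_nhds (x := op ((ρ n s).val - 1)) (f := (atTop : Filter ℕ))) h1
    have h3 := hT.2.2.2.1 _ _ h2
    exact Subtype.ext (sub_eq_zero.1 h3)
  have h1 : Near hs (fun n => ψ n g) (fun n => σ n (f g)) := heq g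
  have h2 : Near hs (fun n => σ n (f g)) 1 := by
    have h3 : Near hs (fun n => σ n (f g)) (fun n => ρ n (f g)) := hρ (f g)
    have h4 : (fun n => ρ n (f g)) = (1 : ∀ n, U (l n)) := by
      funext n
      exact hone n (f g)
    rw [h4] at h3
    exact h3
  have h3 := near_trans hh h1 h2
  have h4 : ∀ n, δ ≤ hs ((ψ n g).val - ((1 : ∀ n, U (l n)) n).val) := by
    intro n
    have h5 := hfar n 1
    rw [one_smul] at h5
    exact h5
  have h5 := ge_of_tendsto' h3 h4
  linarith

end Pool.Agent.HLM
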