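import Pool.Agent.HLM.Targets

/-!
# Diagonal sequences (project HLM, block MFC)
-/

set_option autoImplicit false

open Filter Topology

namespace Pool.Agent.HLM

theorem op_nonneg' {k : ℕ} (A : Matrix (Fin k) (Fin k) ℂ) : 0 ≤ op A := norm_nonneg _

/-- Finite stages of a sequence at which `g` is visible. -/
theorem mfc_stage (G : Type) [Group G] (e : ℕ → G)
    (H : ∀ g : G, g ≠ 1 → ∃ (k : ℕ → ℕ) (φ : ∀ n, G → U (k n)), AsympHom op φ ∧
      ¬ Tendsto (fun n : ℕ => op ((φ n g).val - 1)) atTop (𝓝 0)) (g : G) :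
    ∃ d : ℝ, 0 < d ∧ ∀ m : ℕ, ∃ (k : ℕ) (ψ : G → U k),
      (∀ a ≤ m, ∀ b ≤ m,
        op ((ψ (e a * e b)).val - (ψ (e a)).val * (ψ (e b)).val) < 1 / ((m : ℝ) + 1)) ∧
      (g ≠ 1 → d ≤ op ((ψ g).val - 1)) := by
  by_cases hg : g = 1
  · refine ⟨1, one_pos, fun m => ⟨0, fun _ => 1, fun a _ b _ => ?_, fun h => absurd hg h⟩⟩
    have h0 : ((1 : U 0).val - (1 : U 0).val * (1 : U 0).val) = 0 := by simp
    have h1 : op (0 : Matrix (Fin 0) (Fin 0) ℂ) = 0 := by simp [op]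
    rw [h0, h1]
    positivity
  · obtain ⟨k, φ, hφ, hv⟩ := H g hg
    rw [Metric.tendsto_atTop] at hv
    push Not at hv
    obtain ⟨d, hd, hN⟩ := hv
    refine ⟨d, hd, fun m => ?_⟩
    have hm : (0 : ℝ) < 1 / ((m : ℝ) + 1) := by positivity
    have hev : ∀ᶠ n in atTop, ∀ a ∈ Finset.range (m + 1), ∀ b ∈ Finset.range (m + 1),
        op ((φ n (e a * e b)).val - (φ n (e a)).val * (φ n (e b)).val) < 1 / ((m : ℝ) + 1) := by
      rw [Filter.eventually_all_finset]
      intro a _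
      rw [Filter.eventually_all_finset]
      intro b _
      exact (hφ (e a) (e b)).eventually (gt_mem_nhds hm)
    obtain ⟨N, hN'⟩ := eventually_atTop.mp hev
    obtain ⟨n, hn, hdn⟩ := hN N
    refine ⟨k n, φ n, fun a ha b hb => hN' n hn a ?_ b ?_, fun _ => ?_⟩
    · exact Finset.mem_range.mpr (by omega)
    · exact Finset.mem_range.mpr (by omega)
    · rw [Real.dist_eq, sub_zero, abs_of_nonneg (op_nonneg' _)] at hdn
      exact hdn

theorem p_MFC : T_MFC := by
  intro G _ _ H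
  obtain ⟨e, he⟩ := exists_surjective_nat G
  have hst := fun g : G => mfc_stage G e H g
  choose d hd hdm using hst
  have hall : ∀ n : ℕ, ∃ (k : ℕ) (ψ : G → U k),
      (∀ a ≤ n, ∀ b ≤ n,
        op ((ψ (e a * e b)).val - (ψ (e a)).val * (ψ (e b)).val) < 1 / ((n : ℝ) + 1)) ∧
      (e (Nat.unpair n).1 ≠ 1 → d (e (Nat.unpair n).1) ≤ op ((ψ (e (Nat.unpair n).1)).val - 1)) :=
    fun n => hdm (e (Nat.unpair n).1) n
  choose k ψ hψ using hall
  refine ⟨k, ψ, ?_, ?_⟩
  · intro g h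
    obtain ⟨a, rfl⟩ := he g
    obtain ⟨b, rfl⟩ := he h
    refine squeeze_zero' (Eventually.of_forall fun n => op_nonneg' _) ?_
      tendsto_one_div_add_atTop_nhds_zero_nat
    filter_upwards [eventually_ge_atTop (max a b)] with n hn
    exact ((hψ n).1 a ((le_max_left _ _).trans hn) b ((le_max_right _ _).trans hn)).le
  · intro g hg hlim
    obtain ⟨i, rfl⟩ := he g
    rw [Metric.tendsto_atTop] at hlim
    obtain ⟨N, hN⟩ := hlim (d (e i)) (hd _)
    have h1 := hN (Nat.pair i N) (Nat.right_le_pair i N)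
    have h2 := (hψ (Nat.pair i N)).2
    rw [Nat.unpair_pair] at h2
    have h3 := h2 hg
    rw [Real.dist_eq, sub_zero, abs_of_nonneg (op_nonneg' _)] at h1
    exact absurd h3 (not_le.mpr h1)

end Pool.Agent.HLM
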