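import Pool.Agent.HLM.Targets

/-!
# MP_a51306_an, NORM: properties of the size functions
-/

set_option autoImplicit false

open Filter Topology

namespace Pool.Agent.HLM

namespace NORM_

lemma trace_eq {k : ℕ} (A : Matrix (Fin k) (Fin k) ℂ) :
    (Matrix.trace (Matrix.conjTranspose A * A)).re = ∑ j, ∑ i, ‖A i j‖ ^ 2 := by
  rw [Matrix.trace, Complex.re_sum]
  refine Finset.sum_congr rfl fun j _ => ?_
  rw [Matrix.diag_apply, Matrix.mul_apply, Complex.re_sum]
  refine Finset.sum_congr rfl fun i _ => ?_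
  rw [Matrix.conjTranspose_apply, RCLike.star_def, mul_comm, Complex.mul_conj, Complex.ofReal_re,
    Complex.normSq_eq_norm_sq]

lemma hs_nonneg {k : ℕ} (A : Matrix (Fin k) (Fin k) ℂ) : 0 ≤ hs A := by
  unfold hs
  rw [trace_eq]
  positivity

lemma hs_add {k : ℕ} (A B : Matrix (Fin k) (Fin k) ℂ) : hs (A + B) ≤ 2 * (hs A + hs B) := by
  unfold hs
  rw [trace_eq, trace_eq, trace_eq, ← add_div, ← mul_div_assoc, ← Finset.sum_add_distrib,
    Finset.mul_sum]
  refine div_le_div_of_nonneg_right (Finset.sum_le_sum fun j _ => ?_) (Nat.cast_nonneg _)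
  rw [← Finset.sum_add_distrib, Finset.mul_sum]
  refine Finset.sum_le_sum fun i _ => ?_
  rw [Matrix.add_apply]
  have h1 := norm_add_le (A i j) (B i j)
  have h2 := norm_nonneg (A i j + B i j)
  nlinarith [sq_nonneg (‖A i j‖ - ‖B i j‖), norm_nonneg (A i j), norm_nonneg (B i j)]

lemma hs_le {k : ℕ} (A : Matrix (Fin k) (Fin k) ℂ) : hs A ≤ op A ^ 2 := by
  unfold hs op
  rw [trace_eq]
  rcases Nat.eq_zero_or_pos k with hk | hk
  · subst hk; simp
  rw [div_le_iff₀ (by exact_mod_cast hk)]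
  have h1 : ∀ j : Fin k, ∑ i, ‖A i j‖ ^ 2 ≤ ‖Matrix.toEuclideanCLM (𝕜 := ℂ) A‖ ^ 2 := by
    intro j
    have h2 := (Matrix.toEuclideanCLM (𝕜 := ℂ) A).le_opNorm (EuclideanSpace.single j 1)
    rw [PiLp.norm_single, norm_one, mul_one] at h2
    have h3 : ‖(Matrix.toEuclideanCLM (𝕜 := ℂ) A) (EuclideanSpace.single j 1)‖ ^ 2
        = ∑ i, ‖A i j‖ ^ 2 := by
      rw [EuclideanSpace.norm_sq_eq]
      refine Finset.sum_congr rfl fun i _ => ?_
      congr 2
      rw [Matrix.ofLp_toEuclideanCLM]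
      simp
    rw [← h3]
    exact pow_le_pow_left₀ (norm_nonneg _) h2 2
  calc ∑ j, ∑ i, ‖A i j‖ ^ 2 ≤ ∑ _j : Fin k, ‖Matrix.toEuclideanCLM (𝕜 := ℂ) A‖ ^ 2 :=
        Finset.sum_le_sum fun j _ => h1 j
    _ = ‖Matrix.toEuclideanCLM (𝕜 := ℂ) A‖ ^ 2 * k := by simp [mul_comm]

lemma op_mul {k : ℕ} (A B : Matrix (Fin k) (Fin k) ℂ) : op (A * B) ≤ op A * op B := by
  unfold op
  rw [map_mul]
  exact norm_mul_le _ _

lemma op_u_le {k : ℕ} (u : U k) : op u.val ≤ 1 := by
  have h1 : op u.val * op u.val = op (star u.val * u.val) := by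
    unfold op
    rw [map_mul, map_star]
    exact CStarRing.norm_star_mul_self.symm
  have h2 : op (star u.val * u.val) ≤ 1 := by
    rw [Unitary.coe_star_mul_self]
    unfold op
    rw [map_one]
    exact ContinuousLinearMap.norm_id_le
  have h3 : 0 ≤ op u.val := norm_nonneg _
  nlinarith

lemma hs_left {k : ℕ} (A : Matrix (Fin k) (Fin k) ℂ) (u : U k) : hs (u.val * A) = hs A := by
  unfold hs
  congr 2
  rw [Matrix.conjTranspose_mul, Matrix.mul_assoc, ← Matrix.mul_assoc _ u.val A]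
  have h1 : Matrix.conjTranspose u.val * u.val = 1 := Unitary.coe_star_mul_self u
  rw [h1, Matrix.one_mul]

lemma hs_right {k : ℕ} (A : Matrix (Fin k) (Fin k) ℂ) (v : U k) : hs (A * v.val) = hs A := by
  unfold hs
  congr 2
  rw [Matrix.conjTranspose_mul, Matrix.mul_assoc, Matrix.trace_mul_comm, Matrix.mul_assoc,
    Matrix.mul_assoc]
  have h1 : v.val * Matrix.conjTranspose v.val = 1 := Unitary.coe_mul_star_self v
  rw [h1, Matrix.mul_one]

lemma op_le {k : ℕ} (A : Matrix (Fin k) (Fin k) ℂ) (u v : U k) :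
    op (u.val * A * v.val) ≤ op A := by
  have h1 := op_mul (u.val * A) v.val
  have h2 := op_mul u.val A
  have h3 := op_u_le u
  have h4 := op_u_le v
  have h5 : 0 ≤ op A := norm_nonneg _
  have h6 : 0 ≤ op (u.val * A) := norm_nonneg _
  nlinarith

lemma op_inv {k : ℕ} (A : Matrix (Fin k) (Fin k) ℂ) (u v : U k) :
    op (u.val * A * v.val) = op A := by
  refine le_antisymm (op_le A u v) ?_
  have h1 := op_le (u.val * A * v.val) u⁻¹ v⁻¹
  have h2 : (u⁻¹).val * (u.val * A * v.val) * (v⁻¹).val = A := by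
    have e1 : (u⁻¹).val * u.val = 1 := by
      rw [← Submonoid.coe_mul, inv_mul_cancel]
      rfl
    have e2 : v.val * (v⁻¹).val = 1 := by
      rw [← Submonoid.coe_mul, mul_inv_cancel]
      rfl
    calc (u⁻¹).val * (u.val * A * v.val) * (v⁻¹).val
        = ((u⁻¹).val * u.val) * A * (v.val * (v⁻¹).val) := by simp only [Matrix.mul_assoc]
      _ = A := by rw [e1, e2, Matrix.one_mul, Matrix.mul_one]
  rwa [h2] at h1

end NORM_

open NORM_ in
theorem p_NORM : T_NORM := by
  refine ⟨fun k A => ⟨hs_nonneg A, norm_nonneg _, hs_le A⟩, fun k A B => ⟨hs_add A B, ?_, ?_, ?_⟩,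
    fun k A u v => ⟨?_, op_inv A u v⟩, fun k A h => ?_, fun k d => ?_⟩
  · unfold op
    rw [map_add]
    exact norm_add_le _ _
  · unfold hs
    simp
  · unfold op
    rw [map_neg, norm_neg]
  · rw [hs_right, hs_left]
  · unfold op at h
    rw [norm_eq_zero] at h
    exact (map_eq_zero_iff _ (Matrix.toEuclideanCLM (𝕜 := ℂ)).injective).mp h
  · unfold hs
    rw [trace_eq]
    congr 1
    refine Finset.sum_congr rfl fun j _ => ?_
    rw [Finset.sum_eq_single j]
    · rw [Matrix.diagonal_apply_eq]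
    · intro i _ hij
      rw [Matrix.diagonal_apply_ne _ hij]
      simp
    · intro h
      exact absurd (Finset.mem_univ j) h

end Pool.Agent.HLM
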