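import Pool.Agent.HLM.Targets

set_option autoImplicit false

open Filter Topology

namespace Pool.Agent.HLM

theorem p_PAIR : T_PAIR := by
  intro n m δ l hδ hn hz
  have hδ1 : δ ≤ 1 := by
    have h := hz 0
    have h2 : ∑ i : Fin n, ‖((l i : ℂ)) - 0‖ ^ 2 = n := by simp
    rw [h2] at h
    have hn' : (0 : ℝ) < n := by exact_mod_cast hn
    nlinarith
  have hn' : (0 : ℝ) < n := by exact_mod_cast hn
  induction m with
  | zero =>
    intro _
    exact ⟨fun i => i.elim0, fun i => i.elim0, fun x => by
      rcases x with x | x <;> exact x.elim0, fun j => j.elim0⟩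
  | succ m ih =>
    intro hm
    push_cast at hm
    obtain ⟨s, t, hinj, hst⟩ := ih (by linarith)
    have hs : Function.Injective s := fun a b h => by
      have : (Sum.inl a : Fin m ⊕ Fin m) = Sum.inl b := hinj (by simpa using h)
      exact Sum.inl.inj this
    have ht : Function.Injective t := fun a b h => by
      have : (Sum.inr a : Fin m ⊕ Fin m) = Sum.inr b := hinj (by simpa using h)
      exact Sum.inr.inj this
    have hne : ∀ a b, s a ≠ t b := fun a b h => by
      have : (Sum.inl a : Fin m ⊕ Fin m) = Sum.inr b := hinj (by simpa using h)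
      exact absurd this (by simp)
    classical
    set J : Finset (Fin n) := Finset.univ.image (Sum.elim s t) with hJ
    have hJc : J.card ≤ 2 * m := by
      refine Finset.card_image_le.trans ?_
      simp [two_mul]
    have hsJ : ∀ a, s a ∈ J := fun a => by
      rw [hJ, Finset.mem_image]; exact ⟨Sum.inl a, Finset.mem_univ _, rfl⟩
    have htJ : ∀ a, t a ∈ J := fun a => by
      rw [hJ, Finset.mem_image]; exact ⟨Sum.inr a, Finset.mem_univ _, rfl⟩
    have hlt : 2 * m < n := by
      have : (16 : ℝ) * (m + 1) ≤ n := hm.trans (by nlinarith)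
      have h3 : (2 : ℝ) * m < n := by
        have : (0 : ℝ) ≤ m := Nat.cast_nonneg m
        linarith
      exact_mod_cast h3
    obtain ⟨r0, hr0⟩ : ∃ r0, r0 ∉ J := by
      by_contra hcon
      push Not at hcon
      have : J = Finset.univ := Finset.eq_univ_of_forall hcon
      rw [this, Finset.card_univ, Fintype.card_fin] at hJc
      omega
    obtain ⟨r1, hr1, hr1d⟩ : ∃ r1, r1 ∉ J ∧ δ / 2 ≤ ‖(l r0 : ℂ) - l r1‖ ^ 2 := by
      by_contra hcon
      push Not at hcon
      have h := hz (l r0)
      have hsplit := Finset.sum_add_sum_compl J (fun i => ‖(l i : ℂ) - l r0‖ ^ 2)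
      have h1 : ∑ i ∈ J, ‖(l i : ℂ) - l r0‖ ^ 2 ≤ 4 * (2 * m) := by
        calc ∑ i ∈ J, ‖(l i : ℂ) - l r0‖ ^ 2 ≤ ∑ i ∈ J, (4 : ℝ) := by
              refine Finset.sum_le_sum fun i _ => ?_
              have : ‖(l i : ℂ) - l r0‖ ≤ 2 := by
                refine (norm_sub_le _ _).trans ?_
                simp
                norm_num
              nlinarith [norm_nonneg ((l i : ℂ) - l r0)]
          _ = J.card * 4 := by simp
          _ ≤ 4 * (2 * m) := by
              have : (J.card : ℝ) ≤ 2 * m := by exact_mod_cast hJc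
              linarith
      have h2 : ∑ i ∈ Jᶜ, ‖(l i : ℂ) - l r0‖ ^ 2 ≤ n * (δ / 2) := by
        calc ∑ i ∈ Jᶜ, ‖(l i : ℂ) - l r0‖ ^ 2 ≤ ∑ i ∈ Jᶜ, (δ / 2) := by
              refine Finset.sum_le_sum fun i hi => ?_
              have := hcon i (Finset.mem_compl.mp hi)
              rw [norm_sub_rev]
              exact this.le
          _ = Jᶜ.card * (δ / 2) := by simp
          _ ≤ n * (δ / 2) := by
              have : (Jᶜ.card : ℝ) ≤ n := by
                have := Finset.card_le_univ Jᶜ
                rw [Fintype.card_fin] at this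
                exact_mod_cast this
              nlinarith
      have h3 := hsplit.symm ▸ h
      nlinarith
    have hne01 : r0 ≠ r1 := by
      rintro rfl
      simp at hr1d
      linarith
    refine ⟨Fin.cons r0 s, Fin.cons r1 t, ?_, ?_⟩
    · refine Function.Injective.sumElim ?_ ?_ ?_
      · rw [Fin.cons_injective_iff]
        exact ⟨by rintro ⟨a, ha⟩; exact hr0 (ha ▸ hsJ a), hs⟩
      · rw [Fin.cons_injective_iff]
        exact ⟨by rintro ⟨a, ha⟩; exact hr1 (ha ▸ htJ a), ht⟩
      · intro a b
        refine Fin.cases ?_ (fun a => ?_) a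
        · refine Fin.cases ?_ (fun b => ?_) b
          · simpa using hne01
          · simp only [Fin.cons_zero, Fin.cons_succ]
            intro h; exact hr0 (h ▸ htJ b)
        · refine Fin.cases ?_ (fun b => ?_) b
          · simp only [Fin.cons_zero, Fin.cons_succ]
            intro h; exact hr1 (h ▸ hsJ a)
          · simp only [Fin.cons_succ]
            exact hne a b
    · intro j
      refine Fin.cases ?_ (fun j => ?_) j
      · simpa using hr1d
      · simpa using hst j

end Pool.Agent.HLM
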