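import Pool.Agent.HLM.Targets

/-!
# Products of conjugates (project HLM, MP_a51306_an) (helper78)
-/

set_option autoImplicit false

namespace Pool.Agent.HLM

variable {G : Type} [Group G]

theorem PR_mul (u : G) : ∀ (L M : ℕ) (x y : G), x ∈ Pr u L → y ∈ Pr u M → x * y ∈ Pr u (L + M)
  | 0, M, x, y, hx, hy => by
    have hx1 : x = 1 := hx
    subst hx1
    rw [one_mul, Nat.zero_add]
    exact hy
  | L + 1, M, x, y, hx, hy => by
    obtain ⟨a, b, z, hz, rfl⟩ := hx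
    rw [show L + 1 + M = (L + M) + 1 by omega]
    exact ⟨a, b, z * y, PR_mul u L M z y hz hy, by group⟩

theorem PR_one (u : G) : ∀ L : ℕ, (1 : G) ∈ Pr u L
  | 0 => rfl
  | L + 1 => ⟨1, 1, 1, PR_one u L, by group⟩

theorem PR_mono (u : G) (L M : ℕ) (x : G) (h : L ≤ M) (hx : x ∈ Pr u L) : x ∈ Pr u M := by
  have := PR_mul u L (M - L) x 1 hx (PR_one u _)
  rwa [mul_one, Nat.add_sub_cancel' h] at this

theorem PR_conj (u : G) : ∀ (L : ℕ) (x c : G), x ∈ Pr u L → c * x * c⁻¹ ∈ Pr u L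
  | 0, x, c, hx => by
    have hx1 : x = 1 := hx
    subst hx1
    rw [mul_one, mul_inv_cancel]
    exact PR_one u 0
  | L + 1, x, c, hx => by
    obtain ⟨a, b, z, hz, rfl⟩ := hx
    exact ⟨c * a, c * b, c * z * c⁻¹, PR_conj u L z c hz, by group⟩

theorem PR_inv (u : G) : ∀ (L : ℕ) (x : G), x ∈ Pr u L → x⁻¹ ∈ Pr u L
  | 0, x, hx => by
    have hx1 : x = 1 := hx
    subst hx1
    rw [inv_one]
    exact PR_one u 0
  | L + 1, x, hx => by
    obtain ⟨a, b, z, hz, rfl⟩ := hx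
    have h1 : (a * u * a⁻¹ * (b * u⁻¹ * b⁻¹))⁻¹ ∈ Pr u 1 := ⟨b, a, 1, rfl, by group⟩
    have h2 := PR_mul u L 1 _ _ (PR_inv u L z hz) h1
    rwa [← mul_inv_rev] at h2

theorem PR_pow (u : G) (L : ℕ) (x : G) (hx : x ∈ Pr u L) : ∀ n : ℕ, x ^ n ∈ Pr u (n * L)
  | 0 => by
    rw [pow_zero, Nat.zero_mul]
    exact PR_one u 0
  | n + 1 => by
    rw [pow_succ, Nat.succ_mul]
    exact PR_mul u _ _ _ _ (PR_pow u L x hx n) hx

theorem PR_normal (u : G) (N : Subgroup G) (hN : N.Normal) (hu : u ∈ N) :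
    ∀ (L : ℕ) (x : G), x ∈ Pr u L → x ∈ N
  | 0, x, hx => by
    have hx1 : x = 1 := hx
    subst hx1
    exact N.one_mem
  | L + 1, x, hx => by
    obtain ⟨a, b, z, hz, rfl⟩ := hx
    exact N.mul_mem (N.mul_mem (hN.conj_mem u hu a) (hN.conj_mem _ (N.inv_mem hu) b))
      (PR_normal u N hN hu L z hz)

theorem PR_base (u c : G) : ∀ (L : ℕ) (x : G), x ∈ Pr (c * u * c⁻¹) L → x ∈ Pr u L
  | 0, x, hx => hx
  | L + 1, x, hx => by
    obtain ⟨a, b, z, hz, rfl⟩ := hx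
    exact ⟨a * c, b * c, z, PR_base u c L z hz, by group⟩

theorem PR_comp (u v : G) (K : ℕ) (hv : v ∈ Pr u K) :
    ∀ (L : ℕ) (x : G), x ∈ Pr v L → x ∈ Pr u (2 * K * L)
  | 0, x, hx => by
    have hx1 : x = 1 := hx
    subst hx1
    exact PR_one u _
  | L + 1, x, hx => by
    obtain ⟨a, b, z, hz, rfl⟩ := hx
    have h1 := PR_mul u _ _ _ _ (PR_mul u _ _ _ _ (PR_conj u K v a hv)
      (PR_conj u K v⁻¹ b (PR_inv u K v hv))) (PR_comp u v K hv L z hz)
    rwa [show K + K + 2 * K * L = 2 * K * (L + 1) by ring] at h1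

theorem PR_map {H : Type} [Group H] (f : G →* H) (u : G) :
    ∀ (L : ℕ) (x : G), x ∈ Pr u L → f x ∈ Pr (f u) L
  | 0, x, hx => by
    have hx1 : x = 1 := hx
    subst hx1
    rw [map_one]
    exact PR_one _ 0
  | L + 1, x, hx => by
    obtain ⟨a, b, z, hz, rfl⟩ := hx
    exact ⟨f a, f b, f z, PR_map f u L z hz, by simp⟩

/-- Properties of `Pr`. -/
theorem p_PR : T_PR := by
  intro G _ u
  refine ⟨PR_mul u, PR_mono u, PR_conj u, PR_inv u, fun L x n hx => PR_pow u L x hx n,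
    fun L x hx N hN hu => PR_normal u N hN hu L x hx, fun R => ⟨1, R, 1, rfl, by group⟩,
    fun L c x hx => PR_base u c L x hx, fun K L v x hv hx => PR_comp u v K hv L x hx,
    fun H _ f L x hx => PR_map f u L x hx⟩

end Pool.Agent.HLM
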