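import Pool.Agent.HLM.Targets

/-!
# HLM: paired diagonal matrices are bounded products (block STEP)
-/

set_option autoImplicit false

open Filter Topology

namespace Pool.Agent.HLM

/-- disjoint pairs of points as part of an enumeration -/
theorem step_equiv {m n : ℕ} (s t : Fin m → Fin n) (h : Function.Injective (Sum.elim s t)) :
    ∃ e : (Fin m × Fin 2) ⊕ Fin (n - 2 * m) ≃ Fin n,
      (∀ j, e (Sum.inl (j, 0)) = s j) ∧ (∀ j, e (Sum.inl (j, 1)) = t j) := by
  classical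
  let f : Fin m × Fin 2 → Fin n := fun p => if p.2 = 0 then s p.1 else t p.1
  have hf : Function.Injective f := by
    rintro ⟨j, a⟩ ⟨j', a'⟩ hh
    have key : ∀ (p : Fin m × Fin 2), f p = Sum.elim s t
        (if p.2 = 0 then Sum.inl p.1 else Sum.inr p.1) := by
      rintro ⟨p, q⟩
      simp only [f]
      split_ifs <;> rfl
    rw [key, key] at hh
    have h2 := h hh
    dsimp only at h2
    by_cases ha : a = 0 <;> by_cases ha' : a' = 0
    · rw [if_pos ha, if_pos ha'] at h2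
      rw [ha, ha', Sum.inl.inj h2]
    · rw [if_pos ha, if_neg ha'] at h2
      cases h2
    · rw [if_neg ha, if_pos ha'] at h2
      cases h2
    · rw [if_neg ha, if_neg ha'] at h2
      have e1 : a = 1 := by omega
      have e2 : a' = 1 := by omega
      rw [e1, e2, Sum.inr.inj h2]
  have hc : Fintype.card ((Set.range f)ᶜ : Set (Fin n)) = n - 2 * m := by
    have h1 := Fintype.card_congr (Equiv.ofInjective f hf)
    rw [Fintype.card_compl_set, Fintype.card_fin, ← h1]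
    simp [mul_comm]
  refine ⟨((Equiv.ofInjective f hf).sumCongr (Fintype.equivFinOfCardEq hc).symm).trans
    (Equiv.Set.sumCompl (Set.range f)), fun j => ?_, fun j => ?_⟩
  · simp [f]
  · simp [f]

theorem step_range {m n r : ℕ} (s t : Fin m → Fin n) (e : (Fin m × Fin 2) ⊕ Fin r ≃ Fin n)
    (h0 : ∀ j, e (Sum.inl (j, 0)) = s j) (h1 : ∀ j, e (Sum.inl (j, 1)) = t j) (i : Fin r) :
    (∀ j, s j ≠ e (Sum.inr i)) ∧ (∀ j, t j ≠ e (Sum.inr i)) := by
  refine ⟨fun j hj => ?_, fun j hj => ?_⟩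
  · rw [← h0, e.apply_eq_iff_eq] at hj
    cases hj
  · rw [← h1, e.apply_eq_iff_eq] at hj
    cases hj

theorem step_far (hN : T_NORM) {n : ℕ} (hn : 0 < n) (δ : ℝ) (u w : U n) (l : Fin n → Circle)
    (hu : u = w * dU l * w⁻¹) (hF : Far δ u) (z : ℂ) :
    δ * n ≤ ∑ i, ‖(l i : ℂ) - z‖ ^ 2 := by
  have h1 := hF z
  have h2 : u.val - z • 1 = w.val * Matrix.diagonal (fun i => (l i : ℂ) - z) * (w⁻¹).val := by
    have e1 : Matrix.diagonal (fun i => (l i : ℂ) - z) = (dU l).val - z • 1 := by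
      ext i j
      by_cases hij : i = j
      · subst hij; simp [dU]
      · simp [dU, hij]
    have e2 : w.val * (w⁻¹).val = 1 := by
      have := mul_inv_cancel w
      exact congrArg Subtype.val this
    rw [e1, hu, mul_sub, sub_mul]
    congr 1
    rw [Matrix.mul_smul, Matrix.smul_mul, mul_one, e2]
  rw [h2, (hN.2.2.1 n _ w w⁻¹).1, hN.2.2.2.2, le_div_iff₀ (by exact_mod_cast hn)] at h1
  exact h1

theorem step_exp_sub (φ : ℝ) :
    ‖((Circle.exp φ : Circle) : ℂ) - ((Circle.exp (-φ) : Circle) : ℂ)‖ ^ 2 / 2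
      = 2 * Real.sin φ ^ 2 := by
  rw [Circle.coe_exp, Circle.coe_exp]
  have h : Complex.exp ((φ : ℝ) * Complex.I) - Complex.exp (((-φ : ℝ) : ℂ) * Complex.I)
      = ((2 * Real.sin φ : ℝ) : ℂ) * Complex.I := by
    push_cast
    rw [Complex.exp_mul_I, Complex.exp_mul_I, Complex.cos_neg, Complex.sin_neg]
    ring
  rw [h, norm_mul, Complex.norm_I, mul_one, Complex.norm_real, Real.norm_eq_abs, sq_abs]
  ring

theorem p_STEP (hD : T_DIAG) (hT : T_TWO) (hB : T_BLK) (hP : T_PERM) (hQ : T_PAIR) (hR : T_PR)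
    (hN : T_NORM) : T_STEP := by
  intro δ hδ
  set η : ℝ := min (δ / 4) 1 with hη
  have hη0 : 0 < η := lt_min (by positivity) one_pos
  have hη1 : η ≤ 1 := min_le_right _ _
  have hη2 : η ≤ δ / 4 := min_le_left _ _
  set φ : ℝ := Real.arccos (1 - η) with hφ
  have hcos : Real.cos φ = 1 - η := Real.cos_arccos (by linarith) (by linarith)
  have hsin : Real.sin φ ^ 2 = η * (2 - η) := by
    have := Real.sin_sq_add_cos_sq φ
    rw [hcos] at this
    nlinarith
  have hS : 0 < Real.sin φ ^ 2 := by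
    rw [hsin]; exact mul_pos hη0 (by linarith)
  obtain ⟨K, hK⟩ := exists_nat_gt (Real.pi ^ 2 / (4 * Real.sin φ ^ 2))
  have hK0 : (0 : ℝ) < K := lt_of_le_of_lt (by positivity) hK
  have hKn : 0 < K := by exact_mod_cast hK0
  have hK1 : (1 : ℝ) ≤ K := by exact_mod_cast hKn
  have hK2 : Real.pi ^ 2 / (2 * (K : ℝ) ^ 2) ≤ 2 * Real.sin φ ^ 2 := by
    rw [div_lt_iff₀ (by positivity)] at hK
    rw [div_le_iff₀ (by positivity)]
    have h3 : (K : ℝ) ≤ (K : ℝ) ^ 2 := by nlinarith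
    nlinarith
  refine ⟨K * 2, ?_⟩
  intro n m u hn hm hF d hd
  obtain ⟨w0, l, hu⟩ := hD n u
  obtain ⟨s, t, hst, hst2⟩ := hQ n m δ l hδ hn (step_far hN hn δ u w0 l hu hF) hm
  obtain ⟨e, he0, he1⟩ := step_equiv s t hst
  obtain ⟨β, hβ1, hβ2⟩ := hB m (n - 2 * m) n e
  obtain ⟨r1, r2, r3, r4, r5, r6, r7, r8, r9, r10⟩ := hR (U n) u
  -- splitting of `l`
  let l1 : Fin n → Circle := fun i => Sum.elim (fun _ => l i) (fun _ => 1) (e.symm i)
  let l2 : Fin n → Circle := fun i => Sum.elim (fun _ => 1) (fun _ => l i) (e.symm i)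
  have hl : l = l1 * l2 := by
    funext i
    simp only [l1, l2, Pi.mul_apply]
    rcases e.symm i with p | p <;> simp
  have hl1 : dU l1 = β (fun j => dU ![l (s j), l (t j)]) := by
    rw [hβ1 l1 (fun i => by simp [l1])]
    congr 1
    funext j
    have a0 : l1 (e (Sum.inl (j, 0))) = l (s j) := by
      show Sum.elim (fun _ => l (e (Sum.inl (j, 0)))) (fun _ => 1)
        (e.symm (e (Sum.inl (j, 0)))) = l (s j)
      rw [e.symm_apply_apply, Sum.elim_inl, he0]
    have a1 : l1 (e (Sum.inl (j, 1))) = l (t j) := by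
      show Sum.elim (fun _ => l (e (Sum.inl (j, 1)))) (fun _ => 1)
        (e.symm (e (Sum.inl (j, 1)))) = l (t j)
      rw [e.symm_apply_apply, Sum.elim_inl, he1]
    rw [a0, a1]
  have hl2 : ∀ X, dU l2 * β X = β X * dU l2 := fun X => hβ2 l2 X (fun p => by simp [l2])
  choose R V hRV using fun j : Fin m => hT (l (s j)) (l (t j)) φ (by
    rw [hcos]
    have := hst2 j
    linarith)
  set c0 : U n := β (fun _ => dU ![Circle.exp φ, Circle.exp (-φ)]) with hc0
  have hcomm : dU l * β R * (dU l)⁻¹ * (β R)⁻¹ = β V * c0 * (β V)⁻¹ := by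
    have hdl : dU l = β (fun j => dU ![l (s j), l (t j)]) * dU l2 := by
      rw [← hl1, ← map_mul, ← hl]
    have h2 := hl2 R
    have h1 : dU l * β R * (dU l)⁻¹ * (β R)⁻¹ =
        β (fun j => dU ![l (s j), l (t j)]) * β R * (β (fun j => dU ![l (s j), l (t j)]))⁻¹
          * (β R)⁻¹ := by
      rw [hdl, mul_inv_rev]
      generalize β (fun j => dU ![l (s j), l (t j)]) = B
      calc B * dU l2 * β R * ((dU l2)⁻¹ * B⁻¹) * (β R)⁻¹
          = B * (dU l2 * β R) * ((dU l2)⁻¹ * B⁻¹) * (β R)⁻¹ := by group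
        _ = _ := by rw [h2]; group
    rw [h1, ← map_mul, ← map_inv, ← map_mul, ← map_inv, ← map_mul, hc0, ← map_mul, ← map_inv,
      ← map_mul]
    congr 1
    funext j
    exact hRV j
  obtain ⟨q1, q2, q3, q4, q5, q6, q7, q8, q9, q10⟩ := hR (U n) (dU l)
  have hc1 : c0 ∈ Pr (dU l) 1 := by
    have h1 := q3 1 _ (β V)⁻¹ (q7 (β R))
    rw [hcomm] at h1
    have h2 : (β V)⁻¹ * (β V * c0 * (β V)⁻¹) * ((β V)⁻¹)⁻¹ = c0 := by group
    rwa [h2] at h1
  have hc2 : c0 ∈ Pr u 1 := by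
    have h1 : dU l = w0⁻¹ * u * (w0⁻¹)⁻¹ := by rw [hu]; group
    rw [h1] at hc1
    exact r8 1 _ _ hc1
  -- the second step
  obtain ⟨s', t', hst', hd1, hd2⟩ := hd
  obtain ⟨e', he0', he1'⟩ := step_equiv s' t' hst'
  let ψ : Fin m → ℝ := fun j => Complex.arg (d (s' j) : ℂ)
  have hψ : ∀ j, Circle.exp (ψ j) = d (s' j) := fun j => Circle.exp_arg _
  have hχ : ∀ j, 1 - Real.cos (ψ j / K) ≤
      ‖((Circle.exp φ : Circle) : ℂ) - ((Circle.exp (-φ) : Circle) : ℂ)‖ ^ 2 / 2 := by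
    intro j
    rw [step_exp_sub]
    refine le_trans ?_ hK2
    have h1 := Real.one_sub_sq_div_two_le_cos (x := ψ j / K)
    have h2 : (ψ j) ^ 2 ≤ Real.pi ^ 2 := by
      rw [← sq_abs (ψ j)]
      exact pow_le_pow_left₀ (abs_nonneg _) (Complex.abs_arg_le_pi _) 2
    have h3 : (ψ j / K) ^ 2 / 2 ≤ Real.pi ^ 2 / (2 * (K : ℝ) ^ 2) := by
      rw [div_pow, div_div, mul_comm ((K : ℝ) ^ 2) 2]
      exact div_le_div_of_nonneg_right h2 (by positivity)
    linarith
  choose R' V' hRV' using fun j : Fin m => hT (Circle.exp φ) (Circle.exp (-φ)) (ψ j / K) (hχ j)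
  set c1 : U n := β (fun j => dU ![Circle.exp (ψ j / K), Circle.exp (-(ψ j / K))]) with hc1d
  have hcomm' : c0 * β R' * c0⁻¹ * (β R')⁻¹ = β V' * c1 * (β V')⁻¹ := by
    rw [hc0, hc1d, ← map_mul, ← map_inv, ← map_mul, ← map_inv, ← map_mul, ← map_mul, ← map_inv,
      ← map_mul]
    congr 1
    funext j
    exact hRV' j
  obtain ⟨p1, p2, p3, p4, p5, p6, p7, p8, p9, p10⟩ := hR (U n) c0
  have hc3 : c1 ∈ Pr c0 1 := by
    have h1 := p3 1 _ (β V')⁻¹ (p7 (β R'))
    rw [hcomm'] at h1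
    have h2 : (β V')⁻¹ * (β V' * c1 * (β V')⁻¹) * ((β V')⁻¹)⁻¹ = c1 := by group
    rwa [h2] at h1
  have hc4 : c1 ∈ Pr u 2 := r9 1 1 c0 c1 hc2 hc3
  have hc5 : c1 ^ K ∈ Pr u (K * 2) := r5 2 c1 K hc4
  -- the permutation
  let σ : Equiv.Perm (Fin n) := e'.symm.trans e
  obtain ⟨w, hw⟩ := hP n σ
  let d2 : Fin n → Circle := fun i => d (σ.symm i)
  have hwd : w * dU d2 * w⁻¹ = dU d := by
    rw [hw]
    congr 1
    funext i
    simp [d2]
  have hd3 : dU d2 = c1 ^ K := by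
    have hz : ∀ i, d2 (e (Sum.inr i)) = 1 := by
      intro i
      have h1 : σ.symm (e (Sum.inr i)) = e' (Sum.inr i) := by simp [σ]
      have h2 := step_range s' t' e' he0' he1' i
      show d (σ.symm (e (Sum.inr i))) = 1
      rw [h1]
      exact hd2 _ h2.1 h2.2
    rw [hβ1 d2 hz, hc1d, ← map_pow]
    congr 1
    funext j
    have h0 : d2 (e (Sum.inl (j, 0))) = Circle.exp (ψ j) := by
      show d (σ.symm (e (Sum.inl (j, 0)))) = _
      have h1 : σ.symm (e (Sum.inl (j, 0))) = e' (Sum.inl (j, 0)) := by simp [σ]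
      rw [h1, he0', hψ]
    have h1 : d2 (e (Sum.inl (j, 1))) = Circle.exp (-(ψ j)) := by
      show d (σ.symm (e (Sum.inl (j, 1)))) = _
      have h1 : σ.symm (e (Sum.inl (j, 1))) = e' (Sum.inl (j, 1)) := by simp [σ]
      rw [h1, he1', Circle.exp_neg, hψ]
      exact eq_inv_of_mul_eq_one_right (hd1 j)
    rw [h0, h1, Pi.pow_apply, ← map_pow]
    congr 1
    funext i
    have hKne : (K : ℝ) ≠ 0 := ne_of_gt hK0
    fin_cases i
    · show Circle.exp (ψ j) = Circle.exp (ψ j / K) ^ K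
      rw [← Circle.exp_nsmul, nsmul_eq_mul, mul_div_cancel₀ _ hKne]
    · show Circle.exp (-(ψ j)) = Circle.exp (-(ψ j / K)) ^ K
      rw [← Circle.exp_nsmul, nsmul_eq_mul]
      congr 1
      field_simp
  rw [← hwd, hd3]
  exact r3 _ _ _ hc5

end Pool.Agent.HLM
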