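import Pool.Agent.HLM.Basic
import Pool.Agent.HLM.BWD

/-!
# HLM: minimally almost periodic groups
-/

set_option autoImplicit false

open Filter Topology

namespace Pool.Agent.HLM

/-- The group `H` is minimally almost periodic: every finite-dimensional unitary representation
is trivial. -/
def MinAP (H : Type) [Group H] : Prop := ∀ (k : ℕ) (ρ : H →* U k) (g : H), ρ g = 1

theorem fwd_minAP (hA : T_AMP) (hE : T_EMB) (hM : T_MFC) (hT : T_NORM)
    (hQ : ∀ (G : Type) [Group G] [Countable G], MinAP G → Stable op G → Stable hs G)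
    (G : Type) [Group G] [Countable G] (hG : Approx hs G) : Approx op G := by
  have hh := good_hs hT
  have ho := good_op hT
  refine hM G ?_
  by_contra hcon
  push Not at hcon
  obtain ⟨g, hg1, hinv⟩ := hcon
  obtain ⟨k, φ, hφ, hvis⟩ := hG
  obtain ⟨δ, l, ψ, hδ, hψ, hl, hfar⟩ := hA G g k φ hφ (hvis g hg1)
  obtain ⟨S, _, _, f, σ, hσ, heq, hnorm⟩ := hE G g l ψ δ hδ hψ hl hfar
  -- all homomorphisms of `S` to a quotient for the operator norm are trivial
  have htriv : ∀ (k' : ℕ → ℕ) (F : S →* QG ho k') (s : S), F s = 1 := by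
    intro k' F s
    have h1 : f g ∈ F.ker := by
      obtain ⟨χ, hχ, hF⟩ := exists_rep ho (F.comp f)
      rw [MonoidHom.mem_ker]
      have h2 := hF g
      rw [MonoidHom.comp_apply] at h2
      rw [h2, ← QuotientGroup.mk_one, mk_eq]
      exact hinv k' χ hχ
    have h2 := hnorm F.ker inferInstance h1
    have h3 : s ∈ F.ker := by rw [h2]; trivial
    exact h3
  have hop : Stable op S := by
    rw [stable_iff ho]
    intro k' F
    refine ⟨1, fun s => ?_⟩
    rw [htriv k' F s]
    rfl
  have hmin : MinAP S := by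
    intro m ρ s
    have hcst : AsympHom op (k := fun _ => m) (fun _ s => ρ s) := by
      intro a b
      have h1 : (fun _ : ℕ => op ((ρ (a * b)).val - (ρ a).val * (ρ b).val)) = fun _ => 0 := by
        funext _
        have h2 : (ρ (a * b)).val - (ρ a).val * (ρ b).val = 0 := by
          rw [map_mul]
          exact sub_self _
        rw [h2]
        exact ho.zero
      rw [h1]
      exact tendsto_const_nhds
    obtain ⟨F, hF⟩ := exists_hom ho hcst
    have h1 := htriv _ F s
    rw [hF s, ← QuotientGroup.mk_one, mk_eq] at h1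
    have h2 : op ((ρ s).val - 1) = 0 := tendsto_nhds_unique
      (tendsto_const_nhds (x := op ((ρ s).val - 1)) (f := (atTop : Filter ℕ))) h1
    have h3 := hT.2.2.2.1 _ _ h2
    exact Subtype.ext (sub_eq_zero.1 h3)
  obtain ⟨ρ, hρ⟩ := hQ S hmin hop l σ hσ
  have h1 : Near hs (fun n => ψ n g) (fun n => σ n (f g)) := heq g
  have h2 : Near hs (fun n => σ n (f g)) 1 := by
    have h3 : Near hs (fun n => σ n (f g)) (fun n => ρ n (f g)) := hρ (f g)
    have h4 : (fun n => ρ n (f g)) = (1 : ∀ n, U (l n)) := by
      funext n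
      exact hmin _ (ρ n) (f g)
    rw [h4] at h3
    exact h3
  have h3 := near_trans hh h1 h2
  have h4 : ∀ n, δ ≤ hs ((ψ n g).val - ((1 : ∀ n, U (l n)) n).val) := by
    intro n
    have h5 := hfar n 1
    rw [one_smul] at h5
    exact h5
  have h5 := ge_of_tendsto' h3 h4
  linarith

theorem minAP_of_mf (hT : T_NORM)
    (ha : ∀ (G : Type) [Group G] [Countable G], Approx hs G → Approx op G)
    (G : Type) [Group G] [Countable G] (hm : MinAP G) (hG : Stable op G) : Stable hs G := by
  have hh := good_hs hT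
  have ho := good_op hT
  rw [stable_iff hh]
  rw [stable_iff ho] at hG
  intro k F
  have h1 : Approx hs (G ⧸ F.ker) := by
    rw [approx_iff hh]
    refine ⟨k, QuotientGroup.kerLift F, fun g hg => ?_⟩
    exact QuotientGroup.kerLift_injective F (by rw [hg, map_one])
  have : Countable (G ⧸ F.ker) := (QuotientGroup.mk_surjective (s := F.ker)).countable
  have h2 := ha _ h1
  rw [approx_iff ho] at h2
  obtain ⟨l, F', hF'⟩ := h2
  obtain ⟨ρ, hρ⟩ := hG l (F'.comp (QuotientGroup.mk' F.ker))
  have h3 : ∀ g, F g = 1 := by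
    intro g
    have h4 := hρ g
    have h5 : ρ g = 1 := by
      funext n
      exact hm (l n) ((Pi.evalMonoidHom _ n).comp ρ) g
    rw [h5] at h4
    have h6 := hF' _ h4
    exact (QuotientGroup.eq_one_iff g).1 h6
  refine ⟨1, fun g => ?_⟩
  rw [h3 g]
  rfl

end Pool.Agent.HLM
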