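import Pool.Agent.HLM.Targets

/-!
# Commutators of a diagonal `2 × 2` matrix (project HLM, MP_a51306_an)
-/

set_option autoImplicit false

open Filter Topology

namespace Pool.Agent.HLM

/-- The rotation by an angle with cosine `c` and sine `s`. -/
noncomputable def rot (c s : ℝ) (h : c ^ 2 + s ^ 2 = 1) : U 2 :=
  ⟨!![(c : ℂ), -(s : ℂ); (s : ℂ), (c : ℂ)], by
    have h' : (c : ℂ) ^ 2 + (s : ℂ) ^ 2 = 1 := by exact_mod_cast h
    rw [Matrix.mem_unitaryGroup_iff, Matrix.star_eq_conjTranspose]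
    ext i j
    fin_cases i <;> fin_cases j <;>
      simp [Matrix.mul_apply, Fin.sum_univ_two, Matrix.conjTranspose_apply] <;>
      first | linear_combination h' | ring⟩

theorem det_comm (x y : U 2) : (x * y * x⁻¹ * y⁻¹).val.det = 1 := by
  have h : ∀ u : U 2, u.val.det = (Matrix.detMonoidHom.comp
      (Submonoid.subtype (Matrix.unitaryGroup (Fin 2) ℂ))) u := fun u => rfl
  rw [h, map_mul, map_mul, map_mul]
  have hx : ∀ z : U 2, (Matrix.detMonoidHom.comp
      (Submonoid.subtype (Matrix.unitaryGroup (Fin 2) ℂ))) z *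
      (Matrix.detMonoidHom.comp (Submonoid.subtype (Matrix.unitaryGroup (Fin 2) ℂ))) z⁻¹ = 1 := by
    intro z
    rw [← map_mul, mul_inv_cancel, map_one]
  have h1 := hx x
  have h2 := hx y
  linear_combination (h1) * (Matrix.detMonoidHom.comp
      (Submonoid.subtype (Matrix.unitaryGroup (Fin 2) ℂ))) y * (Matrix.detMonoidHom.comp
      (Submonoid.subtype (Matrix.unitaryGroup (Fin 2) ℂ))) y⁻¹ + h2

theorem trace_comm (a b : Circle) (c s : ℝ) (h : c ^ 2 + s ^ 2 = 1) :
    (dU ![a, b] * rot c s h * (dU ![a, b])⁻¹ * (rot c s h)⁻¹).val.trace =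
      2 - ((s ^ 2 * ‖(a : ℂ) - b‖ ^ 2 : ℝ) : ℂ) := by
  have h' : (c : ℂ) ^ 2 + (s : ℂ) ^ 2 = 1 := by exact_mod_cast h
  have ha : (a : ℂ) * (starRingEnd ℂ) (a : ℂ) = 1 := by
    rw [Complex.mul_conj, Circle.normSq_coe]; simp
  have hb : (b : ℂ) * (starRingEnd ℂ) (b : ℂ) = 1 := by
    rw [Complex.mul_conj, Circle.normSq_coe]; simp
  have hn : ((‖(a : ℂ) - b‖ ^ 2 : ℝ) : ℂ) = ((a : ℂ) - b) * (starRingEnd ℂ) ((a : ℂ) - b) := by
    rw [Complex.mul_conj, Complex.normSq_eq_norm_sq]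
  have hD : (dU ![a, b]).val = !![(a : ℂ), 0; 0, (b : ℂ)] := by
    show Matrix.diagonal (fun i => ((![a, b] i : Circle) : ℂ)) = _
    ext i j
    fin_cases i <;> fin_cases j <;> simp
  have hR : (rot c s h).val = !![(c : ℂ), -(s : ℂ); (s : ℂ), (c : ℂ)] := rfl
  have e : (dU ![a, b] * rot c s h * (dU ![a, b])⁻¹ * (rot c s h)⁻¹).val =
      (dU ![a, b]).val * (rot c s h).val * star (dU ![a, b]).val * star (rot c s h).val := rfl
  rw [e, hD, hR]
  push_cast at hn ⊢
  rw [hn]
  rw [Matrix.trace_fin_two]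
  simp only [Matrix.star_eq_conjTranspose, Matrix.mul_apply, Fin.sum_univ_two,
    Matrix.conjTranspose_apply, map_sub]
  simp
  linear_combination (c ^ 2 + s ^ 2 : ℂ) * ha + (c ^ 2 + s ^ 2 : ℂ) * hb + 2 * h'

/-- The exchange of the coordinates. -/
noncomputable def swp : U 2 :=
  ⟨!![0, 1; 1, 0], by
    rw [Matrix.mem_unitaryGroup_iff, Matrix.star_eq_conjTranspose]
    ext i j
    fin_cases i <;> fin_cases j <;>
      simp [Matrix.mul_apply, Fin.sum_univ_two, Matrix.conjTranspose_apply]⟩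

theorem swp_dU (a b : Circle) : dU ![b, a] = swp * dU ![a, b] * swp⁻¹ := by
  rw [eq_mul_inv_iff_mul_eq]
  apply Subtype.ext
  show (dU ![b, a]).val * swp.val = swp.val * (dU ![a, b]).val
  have hD : ∀ x y : Circle, (dU ![x, y]).val = !![(x : ℂ), 0; 0, (y : ℂ)] := by
    intro x y
    show Matrix.diagonal (fun i => ((![x, y] i : Circle) : ℂ)) = _
    ext i j
    fin_cases i <;> fin_cases j <;> simp
  have hS : swp.val = !![(0 : ℂ), 1; 1, 0] := rfl
  rw [hD, hD, hS]
  ext i j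
  fin_cases i <;> fin_cases j <;> simp

theorem exists_angle (q χ : ℝ) (hq : 0 ≤ q) (h : 1 - Real.cos χ ≤ q / 2) :
    ∃ c s : ℝ, c ^ 2 + s ^ 2 = 1 ∧ s ^ 2 * q = 2 - 2 * Real.cos χ := by
  have h0 : 0 ≤ 1 - Real.cos χ := by linarith [Real.cos_le_one χ]
  rcases eq_or_lt_of_le hq with hq0 | hq0
  · refine ⟨1, 0, by norm_num, ?_⟩
    have : 1 - Real.cos χ ≤ 0 := by rw [← hq0] at h; linarith
    linarith
  · have h1 : 0 ≤ (2 - 2 * Real.cos χ) / q := by
      apply div_nonneg _ hq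
      linarith
    have h2 : (2 - 2 * Real.cos χ) / q ≤ 1 := by
      rw [div_le_one hq0]
      linarith
    refine ⟨Real.sqrt (1 - (2 - 2 * Real.cos χ) / q), Real.sqrt ((2 - 2 * Real.cos χ) / q),
      ?_, ?_⟩
    · rw [Real.sq_sqrt (by linarith), Real.sq_sqrt h1]
      ring
    · rw [Real.sq_sqrt h1]
      field_simp

theorem p_TWO (hD : T_DIAG) : T_TWO := by
  intro a b χ h
  obtain ⟨c, s, hcs, hs⟩ := exists_angle (‖(a : ℂ) - b‖ ^ 2) χ (by positivity) h
  obtain ⟨w, d, hw⟩ := hD 2 (dU ![a, b] * rot c s hcs * (dU ![a, b])⁻¹ * (rot c s hcs)⁻¹)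
  have hd : d = ![d 0, d 1] := by
    ext i
    fin_cases i <;> rfl
  have hDv : ∀ x y : Circle, (dU ![x, y]).val = !![(x : ℂ), 0; 0, (y : ℂ)] := by
    intro x y
    show Matrix.diagonal (fun i => ((![x, y] i : Circle) : ℂ)) = _
    ext i j
    fin_cases i <;> fin_cases j <;> simp
  have hdv : (dU d).val = !![(d 0 : ℂ), 0; 0, (d 1 : ℂ)] := by
    rw [hd]
    exact hDv _ _
  have hwv : (dU ![a, b] * rot c s hcs * (dU ![a, b])⁻¹ * (rot c s hcs)⁻¹).val =
      w.val * (dU d).val * star w.val := by rw [hw]; rfl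
  have hww : star w.val * w.val = 1 := Matrix.UnitaryGroup.star_mul_self w
  have htr : (d 0 : ℂ) + d 1 = 2 * Complex.cos χ := by
    have h1 := trace_comm a b c s hcs
    rw [hwv, Matrix.mul_assoc, Matrix.trace_mul_comm, Matrix.mul_assoc, hww, Matrix.mul_one,
      hdv, Matrix.trace_fin_two, hs] at h1
    simp at h1
    rw [h1]
  have hdet : (d 0 : ℂ) * d 1 = 1 := by
    have h1 := det_comm (dU ![a, b]) (rot c s hcs)
    rw [hwv, Matrix.det_mul, Matrix.det_mul, mul_comm (Matrix.det w.val), mul_assoc,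
      ← Matrix.det_mul] at h1
    have hww' : w.val * star w.val = 1 := by
      have := mul_inv_cancel w
      exact congrArg Subtype.val this
    rw [hww', Matrix.det_one, mul_one, hdv, Matrix.det_fin_two] at h1
    simpa using h1
  have hexp : (Circle.exp χ : ℂ) * (Circle.exp (-χ) : ℂ) = 1 := by
    rw [← Circle.coe_mul, ← Circle.exp_add]
    simp
  have hsum : (Circle.exp χ : ℂ) + (Circle.exp (-χ) : ℂ) = 2 * Complex.cos χ := by
    rw [Circle.coe_exp, Circle.coe_exp, Complex.cos]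
    push_cast
    ring
  have hz : ((d 0 : ℂ) - (Circle.exp χ : ℂ)) * ((d 0 : ℂ) - (Circle.exp (-χ) : ℂ)) = 0 := by
    have e1 : (d 1 : ℂ) = 2 * Complex.cos χ - d 0 := by rw [← htr]; ring
    rw [e1] at hdet
    linear_combination hexp - hdet - (d 0 : ℂ) * hsum
  rcases mul_eq_zero.mp hz with h1 | h1
  · have e0 : d 0 = Circle.exp χ := by
      apply Circle.ext
      exact sub_eq_zero.mp h1
    have e1 : d 1 = Circle.exp (-χ) := by
      apply Circle.ext
      have := htr
      rw [e0, ← hsum] at this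
      exact add_left_cancel this
    refine ⟨rot c s hcs, w, ?_⟩
    rw [hw, hd, e0, e1]
  · have e0 : d 0 = Circle.exp (-χ) := by
      apply Circle.ext
      exact sub_eq_zero.mp h1
    have e1 : d 1 = Circle.exp χ := by
      apply Circle.ext
      have := htr
      rw [e0, ← hsum, add_comm] at this
      exact add_right_cancel this
    refine ⟨rot c s hcs, w * swp, ?_⟩
    rw [hw, hd, e0, e1, swp_dU (Circle.exp χ) (Circle.exp (-χ))]
    group

end Pool.Agent.HLM
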