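import Pool.Agent.HLM.Defs

/-!
# Targets of the project HLM (MP_a51306_an)
-/

set_option autoImplicit false

open Filter Topology

namespace Pool.Agent.HLM

/-- A unitary matrix is diagonal in an orthonormal basis. -/
def T_DIAG : Prop := ∀ (n : ℕ) (u : U n), ∃ (w : U n) (d : Fin n → Circle), u = w * dU d * w⁻¹

/-- Commutators of a diagonal `2 × 2` matrix. -/
def T_TWO : Prop := ∀ (a b : Circle) (χ : ℝ), 1 - Real.cos χ ≤ ‖(a : ℂ) - b‖ ^ 2 / 2 →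
  ∃ R V : U 2, dU ![a, b] * R * (dU ![a, b])⁻¹ * R⁻¹ =
    V * dU ![Circle.exp χ, Circle.exp (-χ)] * V⁻¹

/-- Block matrices with `2 × 2` blocks. -/
def T_BLK : Prop := ∀ (m r n : ℕ) (e : (Fin m × Fin 2) ⊕ Fin r ≃ Fin n),
  ∃ β : (Fin m → U 2) →* U n,
    (∀ d : Fin n → Circle, (∀ i, d (e (Sum.inr i)) = 1) →
      dU d = β (fun j => dU ![d (e (Sum.inl (j, 0))), d (e (Sum.inl (j, 1)))])) ∧
    (∀ (d : Fin n → Circle) (X : Fin m → U 2), (∀ p, d (e (Sum.inl p)) = 1) →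
      dU d * β X = β X * dU d)

/-- Permutation matrices. -/
def T_PERM : Prop := ∀ (n : ℕ) (σ : Equiv.Perm (Fin n)),
  ∃ w : U n, ∀ d : Fin n → Circle, w * dU d * w⁻¹ = dU (fun i => d (σ i))

/-- Many disjoint pairs of distant points. -/
def T_PAIR : Prop := ∀ (n m : ℕ) (δ : ℝ) (l : Fin n → Circle), 0 < δ → 0 < n →
  (∀ z : ℂ, δ * n ≤ ∑ i, ‖(l i : ℂ) - z‖ ^ 2) → 16 * (m : ℝ) ≤ δ * n →
  ∃ s t : Fin m → Fin n, Function.Injective (Sum.elim s t) ∧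
    ∀ j, δ / 2 ≤ ‖(l (s j) : ℂ) - l (t j)‖ ^ 2

/-- Properties of `Pr`. -/
def T_PR : Prop := ∀ (G : Type) [Group G] (u : G),
  (∀ L M x y, x ∈ Pr u L → y ∈ Pr u M → x * y ∈ Pr u (L + M)) ∧
  (∀ L M x, L ≤ M → x ∈ Pr u L → x ∈ Pr u M) ∧
  (∀ L x c, x ∈ Pr u L → c * x * c⁻¹ ∈ Pr u L) ∧
  (∀ L x, x ∈ Pr u L → x⁻¹ ∈ Pr u L) ∧
  (∀ L x n, x ∈ Pr u L → x ^ n ∈ Pr u (n * L)) ∧
  (∀ L x, x ∈ Pr u L → ∀ N : Subgroup G, N.Normal → u ∈ N → x ∈ N) ∧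
  (∀ R : G, u * R * u⁻¹ * R⁻¹ ∈ Pr u 1) ∧
  (∀ L c x, x ∈ Pr (c * u * c⁻¹) L → x ∈ Pr u L) ∧
  (∀ K L v x, v ∈ Pr u K → x ∈ Pr v L → x ∈ Pr u (2 * K * L)) ∧
  (∀ (H : Type) [Group H] (f : G →* H) (L : ℕ) (x : G), x ∈ Pr u L → f x ∈ Pr (f u) L)

/-- Paired diagonal matrices are bounded products. -/
def T_STEP : Prop := ∀ δ : ℝ, 0 < δ → ∃ K : ℕ, ∀ (n m : ℕ) (u : U n), 0 < n →
  16 * (m : ℝ) ≤ δ * n → Far δ u → ∀ d : Fin n → Circle, Paired m d → dU d ∈ Pr u K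

/-- Every diagonal matrix is almost a bounded product of paired ones. -/
def T_ALT : Prop := ∀ (n m q : ℕ), 0 < m → 2 * m ≤ n → n ≤ 2 * q * m → ∀ v : Fin n → Circle,
  ∃ (a : Fin (2 * q) → Fin n → Circle) (c : Fin n → Circle), (∀ i, Paired m (a i)) ∧
    (∀ x : Fin n, x.val + 1 < n → c x = 1) ∧ v = (∏ i, a i) * c

/-- Bounded normal generation in the unitary groups. -/
def T_BNG : Prop := ∀ δ : ℝ, 0 < δ → ∃ L n₀ : ℕ, ∀ (n : ℕ) (u v : U n), n₀ ≤ n → Far δ u →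
  ∃ x ∈ Pr u L, hs (v.val - x.val) ≤ 4 / n

/-- Properties of the size functions. -/
def T_NORM : Prop :=
  (∀ (k : ℕ) (A : Matrix (Fin k) (Fin k) ℂ), 0 ≤ hs A ∧ 0 ≤ op A ∧ hs A ≤ op A ^ 2) ∧
  (∀ (k : ℕ) (A B : Matrix (Fin k) (Fin k) ℂ), hs (A + B) ≤ 2 * (hs A + hs B) ∧
    op (A + B) ≤ op A + op B ∧ hs (-A) = hs A ∧ op (-A) = op A) ∧
  (∀ (k : ℕ) (A : Matrix (Fin k) (Fin k) ℂ) (u v : U k), hs (u.val * A * v.val) = hs A ∧
    op (u.val * A * v.val) = op A) ∧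
  (∀ (k : ℕ) (A : Matrix (Fin k) (Fin k) ℂ), op A = 0 → A = 0) ∧
  (∀ (k : ℕ) (d : Fin k → ℂ), hs (Matrix.diagonal d) = (∑ i, ‖d i‖ ^ 2) / k)

/-- From an approximation visible at `g` to one in which `g` is far from the scalars. -/
def T_AMP : Prop := ∀ (G : Type) [Group G] (g : G) (k : ℕ → ℕ) (φ : ∀ n, G → U (k n)),
  AsympHom hs φ → ¬ Tendsto (fun n : ℕ => hs ((φ n g).val - 1)) atTop (𝓝 0) →
  ∃ (δ : ℝ) (l : ℕ → ℕ) (ψ : ∀ n, G → U (l n)), 0 < δ ∧ AsympHom hs ψ ∧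
    Tendsto l atTop atTop ∧ ∀ n, Far δ (ψ n g)

/-- The embedding theorem. -/
def T_EMB : Prop := ∀ (G : Type) [Group G] [Countable G] (g : G) (k : ℕ → ℕ)
  (φ : ∀ n, G → U (k n)) (δ : ℝ), 0 < δ → AsympHom hs φ → Tendsto k atTop atTop →
  (∀ n, Far δ (φ n g)) →
  ∃ (S : Type) (_ : Group S) (_ : Countable S) (f : G →* S) (σ : ∀ n, S → U (k n)),
    AsympHom hs σ ∧ AsympEq hs φ (fun n h => σ n (f h)) ∧
    ∀ N : Subgroup S, N.Normal → f g ∈ N → N = ⊤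

/-- Separately visible elements are visible together. -/
def T_MFC : Prop := ∀ (G : Type) [Group G] [Countable G],
  (∀ g : G, g ≠ 1 → ∃ (k : ℕ → ℕ) (φ : ∀ n, G → U (k n)), AsympHom op φ ∧
    ¬ Tendsto (fun n : ℕ => op ((φ n g).val - 1)) atTop (𝓝 0)) → Approx op G

/-- The first implication. -/
def T_FWD : Prop := (∀ (G : Type) [Group G] [Countable G], Stable op G → Stable hs G) →
  ∀ (G : Type) [Group G] [Countable G], Approx hs G → Approx op G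

/-- The second implication. -/
def T_BWD : Prop := (∀ (G : Type) [Group G] [Countable G], Approx hs G → Approx op G) →
  (∀ (G : Type) [Group G] [Countable G], MAP G → Stable op G → Stable hs G) →
  ∀ (G : Type) [Group G] [Countable G], Stable op G → Stable hs G

end Pool.Agent.HLM
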